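import Pool.Agent.Y124.GE.Bd
import Pool.Agent.Y124.GE.Li

/-!
# Local data in normal form
-/

set_option autoImplicit false

open PowerSeries

namespace Pool.Agent.Y124.TD

open Pool.Agent.Y124.GE Pool.Agent.Y113 Pool.Agent.Y113.HGG Pool.Agent.Y655.HG Pool.Agent.Y120.GH Pool.Agent.Y120.GF

variable {a b : Polynomial ℚ}

lemma ld_base (L : LD a b) (hm : L.m 0 = L.m 1) (ρ σ : Fin 2 → ℚ) (h1 : ρ 0 * L.N 0 0 + ρ 1 * L.N 1 0 = 0)
    (h2 : ρ 0 * L.N 0 1 + ρ 1 * L.N 1 1 = 0) (h3 : σ 0 * L.N 0 0 + σ 1 * L.N 1 0 = ρ 0)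
    (h4 : σ 0 * L.N 0 1 + σ 1 * L.N 1 1 = ρ 1) (hdet : ρ 0 * σ 1 - ρ 1 * σ 0 ≠ 0) :
    ∃ L' : LD a b, L'.m 0 = L'.m 1 ∧ L'.N 0 0 = 0 ∧ L'.N 0 1 = 0 ∧ L'.N 1 0 = 1 ∧ L'.N 1 1 = 0 := by
  have g1 := congrArg (PowerSeries.C (R := ℚ)) h1
  have g2 := congrArg (PowerSeries.C (R := ℚ)) h2
  have g3 := congrArg (PowerSeries.C (R := ℚ)) h3
  have g4 := congrArg (PowerSeries.C (R := ℚ)) h4
  rw [map_add, map_mul, map_mul, map_zero] at g1 g2
  rw [map_add, map_mul, map_mul] at g3 g4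
  have hC12 : (PowerSeries.C (1 / 12 : ℚ) : ℚ⟦X⟧) = PowerSeries.C (1 / 12 : ℚ) := rfl
  set G : Fin 2 → Fin 2 → ℚ := ![ρ, σ] with hG
  set Y' : Fin 2 → Fin 2 → ℚ⟦X⟧ := fun i j => ∑ k, PowerSeries.C (G i k) * L.Y k j with hY'
  have hY0 : ∀ j, Y' 0 j = PowerSeries.C (ρ 0) * L.Y 0 j + PowerSeries.C (ρ 1) * L.Y 1 j := fun j => Fin.sum_univ_two _
  have hY1 : ∀ j, Y' 1 j = PowerSeries.C (σ 0) * L.Y 0 j + PowerSeries.C (σ 1) * L.Y 1 j := fun j => Fin.sum_univ_two _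
  refine ⟨⟨L.m, !![0, 0; 1, 0], Y', ?_, ?_, ?_, ?_, ?_⟩, hm, rfl, rfl, rfl, rfl⟩
  · ext i j
    fin_cases i <;> fin_cases j <;> simp [Matrix.mul_apply]
  · intro i k h
    fin_cases i <;> fin_cases k
    · rfl
    · exact hm
    · exact hm.symm
    · rfl
  · intro i j
    fin_cases i
    · show SDc (Y' 0 j)
      rw [hY0]
      exact ((SDc_const _).mul (L.sd 0 j)).add ((SDc_const _).mul (L.sd 1 j))
    · show SDc (Y' 1 j)
      rw [hY1]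
      exact ((SDc_const _).mul (L.sd 0 j)).add ((SDc_const _).mul (L.sd 1 j))
  · have h5 : Y' 0 0 * Y' 1 1 - Y' 0 1 * Y' 1 0 = PowerSeries.C (ρ 0 * σ 1 - ρ 1 * σ 0) * (L.Y 0 0 * L.Y 1 1 - L.Y 0 1 * L.Y 1 0) := by
      rw [hY0, hY0, hY1, hY1, map_sub, map_mul, map_mul]
      ring
    rw [h5]
    refine mul_ne_zero ?_ L.det
    intro h0
    exact hdet (by simpa using congrArg constantCoeff h0)
  · intro j
    funext i
    rw [Pi.smul_apply, smul_eq_mul, Dc_apply, Finset.sum_apply]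
    simp only [Pi.smul_apply, smul_eq_mul]
    have o0 := ode_row L 0 j
    have o1 := ode_row L 1 j
    rw [Fin.sum_univ_two, Fin.sum_univ_two] at o0 o1
    rw [Fin.sum_univ_two, Fin.sum_univ_two]
    have c00 : cN (fun i => (L.m i : ℚ) / 12) ((1 / 12 : ℚ) • L.N) 0 0 = (L.m 0 : ℚ) / 12 - 1 / 12 * L.N 0 0 := by
      simp [cN]
    have c01 : cN (fun i => (L.m i : ℚ) / 12) ((1 / 12 : ℚ) • L.N) 0 1 = - (1 / 12 * L.N 0 1) := by
      simp [cN]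
    have c10 : cN (fun i => (L.m i : ℚ) / 12) ((1 / 12 : ℚ) • L.N) 1 0 = - (1 / 12 * L.N 1 0) := by
      simp [cN]
    have c11 : cN (fun i => (L.m i : ℚ) / 12) ((1 / 12 : ℚ) • L.N) 1 1 = (L.m 0 : ℚ) / 12 - 1 / 12 * L.N 1 1 := by
      simp [cN, hm]
    have e00 : cN (fun i => (L.m i : ℚ) / 12) ((1 / 12 : ℚ) • (!![0, 0; 1, 0] : Matrix (Fin 2) (Fin 2) ℚ)) 0 0 = (L.m 0 : ℚ) / 12 := by
      simp [cN]
    have e01 : cN (fun i => (L.m i : ℚ) / 12) ((1 / 12 : ℚ) • (!![0, 0; 1, 0] : Matrix (Fin 2) (Fin 2) ℚ)) 0 1 = 0 := by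
      simp [cN]
    have e10 : cN (fun i => (L.m i : ℚ) / 12) ((1 / 12 : ℚ) • (!![0, 0; 1, 0] : Matrix (Fin 2) (Fin 2) ℚ)) 1 0 = -(1 / 12) := by
      simp [cN]
    have e11 : cN (fun i => (L.m i : ℚ) / 12) ((1 / 12 : ℚ) • (!![0, 0; 1, 0] : Matrix (Fin 2) (Fin 2) ℚ)) 1 1 = (L.m 0 : ℚ) / 12 := by
      simp [cN, hm]
    rw [c00, c01] at o0
    rw [c10, c11] at o1
    simp only [map_sub, map_neg, map_mul] at o0 o1
    have d0 : d⁄dX ℚ (Y' 0 j) = PowerSeries.C (ρ 0) * d⁄dX ℚ (L.Y 0 j) + PowerSeries.C (ρ 1) * d⁄dX ℚ (L.Y 1 j) := by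
      rw [hY0, map_add, Derivation.leibniz, Derivation.leibniz, derivative_C, derivative_C]
      simp only [smul_eq_mul, mul_zero, add_zero]
    have d1 : d⁄dX ℚ (Y' 1 j) = PowerSeries.C (σ 0) * d⁄dX ℚ (L.Y 0 j) + PowerSeries.C (σ 1) * d⁄dX ℚ (L.Y 1 j) := by
      rw [hY1, map_add, Derivation.leibniz, Derivation.leibniz, derivative_C, derivative_C]
      simp only [smul_eq_mul, mul_zero, add_zero]
    fin_cases i
    · simp only [Fin.zero_eta]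
      rw [e00, e01, d0, hY0, hY0, hY0, hY1, map_zero, zero_mul, add_zero]
      linear_combination (PowerSeries.C (ρ 0)) * o0 + (PowerSeries.C (ρ 1)) * o1 -
        ((De a b : ℚ⟦X⟧) * PowerSeries.C (1 / 12 : ℚ) * L.Y 0 j) * g1 - ((De a b : ℚ⟦X⟧) * PowerSeries.C (1 / 12 : ℚ) * L.Y 1 j) * g2
    · simp only [Fin.mk_one]
      rw [e10, e11, d1, hY1, hY1, hY1, hY0, map_neg]
      linear_combination (PowerSeries.C (σ 0)) * o0 + (PowerSeries.C (σ 1)) * o1 -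
        ((De a b : ℚ⟦X⟧) * PowerSeries.C (1 / 12 : ℚ) * L.Y 0 j) * g3 - ((De a b : ℚ⟦X⟧) * PowerSeries.C (1 / 12 : ℚ) * L.Y 1 j) * g4

/-- the residue matrix is zero or elementary -/
theorem ld_normal (L : LD a b) : ∃ L' : LD a b, (∀ i j, L'.N i j = 0) ∨
    (L'.m 0 = L'.m 1 ∧ L'.N 0 0 = 0 ∧ L'.N 0 1 = 0 ∧ L'.N 1 0 = 1 ∧ L'.N 1 1 = 0) := by
  have n00 : L.N 0 0 * L.N 0 0 + L.N 0 1 * L.N 1 0 = 0 := by
    have := congrFun (congrFun L.hN 0) 0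
    rwa [Matrix.mul_apply, Fin.sum_univ_two] at this
  have n01 : L.N 0 0 * L.N 0 1 + L.N 0 1 * L.N 1 1 = 0 := by
    have := congrFun (congrFun L.hN 0) 1
    rwa [Matrix.mul_apply, Fin.sum_univ_two] at this
  have n10 : L.N 1 0 * L.N 0 0 + L.N 1 1 * L.N 1 0 = 0 := by
    have := congrFun (congrFun L.hN 1) 0
    rwa [Matrix.mul_apply, Fin.sum_univ_two] at this
  have n11 : L.N 1 0 * L.N 0 1 + L.N 1 1 * L.N 1 1 = 0 := by
    have := congrFun (congrFun L.hN 1) 1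
    rwa [Matrix.mul_apply, Fin.sum_univ_two] at this
  by_cases h01 : L.N 0 1 = 0
  · have h00 : L.N 0 0 = 0 := by
      rw [h01, zero_mul, add_zero] at n00
      exact mul_self_eq_zero.1 n00
    have h11 : L.N 1 1 = 0 := by
      rw [h01, mul_zero, zero_add] at n11
      exact mul_self_eq_zero.1 n11
    by_cases h10 : L.N 1 0 = 0
    · refine ⟨L, Or.inl fun i j => ?_⟩
      fin_cases i <;> fin_cases j
      · exact h00
      · exact h01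
      · exact h10
      · exact h11
    · obtain ⟨L', hL'⟩ := ld_base L (L.hm 1 0 h10).symm ![L.N 1 0, L.N 1 1] ![0, 1]
        (by simpa using n10) (by simpa using n11) (by simp) (by simp) (by simpa using h10)
      exact ⟨L', Or.inr hL'⟩
  · obtain ⟨L', hL'⟩ := ld_base L (L.hm 0 1 h01) ![L.N 0 0, L.N 0 1] ![1, 0]
      (by simpa using n00) (by simpa using n01) (by simp) (by simp) (by simpa using h01)
    exact ⟨L', Or.inr hL'⟩

end Pool.Agent.Y124.TD
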