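import Pool.Agent.Y124.TD.Ap2
import Pool.Agent.Y124.TD.Nm
import Pool.Agent.Y124.GE.Fin

/-!
# All tuples in short windows
-/

set_option autoImplicit false

open Module Finset

namespace Pool.Agent.Y124.TD

open Pool.Agent.Y124 Pool.Agent.Y124.GE Pool.Agent.Y120.GF Pool.Agent.Y120.GH

/-- the period matrix of a point -/
noncomputable def PM (x : MC) : Fin 2 → Fin 2 → ℂ := ![row (lam x) x.2.2, row (1 - lam x) (-Complex.I * x.2.2)]

/-- back to `t` -/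
noncomputable def mcI (n t : ℕ) (x : MC) : MC := ((t : ℂ), fun i => x.2.1 i * ((t : ℂ) ^ n) ^ 2, x.2.2 * (t : ℂ) ^ n)

lemma mcI_lam {n t : ℕ} (ht : t ≠ 0) (x : MC) : lam (mcI n t x) = lam x := by
  have htc : (t : ℂ) ≠ 0 := by exact_mod_cast ht
  have hT0 : ((t : ℂ) ^ n) ^ 2 ≠ 0 := pow_ne_zero _ (pow_ne_zero _ htc)
  show (x.2.1 2 * ((t : ℂ) ^ n) ^ 2 - x.2.1 0 * ((t : ℂ) ^ n) ^ 2) / (x.2.1 1 * ((t : ℂ) ^ n) ^ 2 - x.2.1 0 * ((t : ℂ) ^ n) ^ 2) =
    (x.2.1 2 - x.2.1 0) / (x.2.1 1 - x.2.1 0)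
  rw [← sub_mul, ← sub_mul, mul_div_mul_right _ _ hT0]

lemma mcI_Cv {a b : Polynomial ℚ} {n t : ℕ} (ht : t ≠ 0) (ha : a.natDegree ≤ 4 * n) (hb : b.natDegree ≤ 6 * n) {x : MC}
    (hx1 : x.1 = 1 / (t : ℂ)) (hx : Cv (cp (Polynomial.reflect (4 * n) a)) (cp (Polynomial.reflect (6 * n) b)) x) :
    Cv (cp a) (cp b) (mcI n t x) := by
  have htc : (t : ℂ) ≠ 0 := by exact_mod_cast ht
  set T : ℂ := (t : ℂ) ^ n with hT
  have hT0 : T ≠ 0 := pow_ne_zero _ htc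
  constructor
  · intro X
    show X ^ 3 + (cp a).eval (t : ℂ) * X + (cp b).eval (t : ℂ) = (X - x.2.1 0 * T ^ 2) * (X - x.2.1 1 * T ^ 2) * (X - x.2.1 2 * T ^ 2)
    have h1 := hx.1 (X / T ^ 2)
    rw [hx1] at h1
    rw [← refl_eval a ha htc, ← refl_eval b hb htc]
    have h3 : (t : ℂ) ^ (4 * n) = T ^ 4 := by rw [hT, ← pow_mul, mul_comm]
    have h4 : (t : ℂ) ^ (6 * n) = T ^ 6 := by rw [hT, ← pow_mul, mul_comm]
    rw [h3, h4]
    have h5 : (X - x.2.1 0 * T ^ 2) * (X - x.2.1 1 * T ^ 2) * (X - x.2.1 2 * T ^ 2) =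
        T ^ 6 * ((X / T ^ 2 - x.2.1 0) * (X / T ^ 2 - x.2.1 1) * (X / T ^ 2 - x.2.1 2)) := by
      field_simp
    rw [h5, ← h1]
    field_simp
  · show (x.2.2 * T) ^ 2 = x.2.1 1 * T ^ 2 - x.2.1 0 * T ^ 2
    rw [mul_pow, hx.2, sub_mul]

lemma row_scale (l v T : ℂ) (hT : T ≠ 0) : row l v 0 = T * row l (v * T) 0 ∧ row l v 1 = T⁻¹ * row l (v * T) 1 := by
  constructor
  · show 4 / v * eK l = T * (4 / (v * T) * eK l)
    by_cases hv : v = 0
    · rw [hv]; simp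
    · field_simp
  · show 4 / v * (-(v ^ 2 * (1 + l) / 3) * eK l + v ^ 2 * (eK l - eE l)) =
      T⁻¹ * (4 / (v * T) * (-((v * T) ^ 2 * (1 + l) / 3) * eK l + (v * T) ^ 2 * (eK l - eE l)))
    by_cases hv : v = 0
    · rw [hv]; simp
    · field_simp

/-- the space contains the scaled matrix -/
lemma PM_mem {K : IntermediateField ℚ ℂ} {W : Submodule K ℂ} {n t : ℕ} (ht : t ≠ 0) (x : MC)
    (h : ∀ i j, PM (mcI n t x) i j ∈ W) (i j : Fin 2) : PM x i j ∈ W := by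
  have htq : ((t : ℚ) ^ n) ≠ 0 := pow_ne_zero _ (by exact_mod_cast ht)
  have hT0 : (t : ℂ) ^ n ≠ 0 := pow_ne_zero _ (by exact_mod_cast ht)
  have mQ : ∀ (q : ℚ) {x : ℂ}, x ∈ W → (q : ℂ) * x ∈ W := by
    intro q x hx
    have h2 : (q : ℂ) * x = (algebraMap ℚ K q) • x := by
      rw [Algebra.smul_def]
      rfl
    rw [h2]
    exact Submodule.smul_mem _ _ hx
  have hl := mcI_lam (n := n) ht x
  have e0 : ∀ j, PM (mcI n t x) 0 j = row (lam x) (x.2.2 * (t : ℂ) ^ n) j := by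
    intro j
    show row (lam (mcI n t x)) (x.2.2 * (t : ℂ) ^ n) j = _
    rw [hl]
  have e1 : ∀ j, PM (mcI n t x) 1 j = row (1 - lam x) ((-Complex.I * x.2.2) * (t : ℂ) ^ n) j := by
    intro j
    show row (1 - lam (mcI n t x)) (-Complex.I * (x.2.2 * (t : ℂ) ^ n)) j = _
    rw [hl, mul_assoc]
  have key : ∀ l v : ℂ, (∀ j, row l (v * (t : ℂ) ^ n) j ∈ W) → ∀ j, row l v j ∈ W := by
    intro l v hlv j
    obtain ⟨k0, k1⟩ := row_scale l v ((t : ℂ) ^ n) hT0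
    fin_cases j
    · show row l v 0 ∈ W
      rw [k0]
      have := mQ ((t : ℚ) ^ n) (hlv 0)
      push_cast at this
      exact this
    · show row l v 1 ∈ W
      rw [k1]
      have := mQ (((t : ℚ) ^ n)⁻¹) (hlv 1)
      push_cast at this
      exact this
  fin_cases i
  · exact key _ _ (fun j => by rw [← e0]; exact h 0 j) j
  · exact key _ _ (fun j => by rw [← e1]; exact h 1 j) j

/-- the windows -/
lemma window (E R' : ℕ) : ∃ (c : ℝ) (N₀ : ℕ), 0 < c ∧ ∀ N : ℕ, N₀ ≤ N → (⌊(N : ℝ) ^ c⌋₊ + R' + 2) ^ E ≤ N := by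
  refine ⟨1 / (2 * ((E : ℝ) + 1)), (R' + 3) ^ (2 * E) + 1, by positivity, fun N hN => ?_⟩
  set c : ℝ := 1 / (2 * ((E : ℝ) + 1)) with hc
  have hc0 : 0 < c := by positivity
  have hN1 : (1 : ℝ) ≤ N := by
    have : 1 ≤ N := by omega
    exact_mod_cast this
  have hN0 : (0 : ℝ) < N := by linarith
  have hNc : (1 : ℝ) ≤ (N : ℝ) ^ c := Real.one_le_rpow hN1 hc0.le
  have h1 : ((⌊(N : ℝ) ^ c⌋₊ + R' + 2 : ℕ) : ℝ) ≤ ((R' : ℝ) + 3) * (N : ℝ) ^ c := by
    have h2 : ((⌊(N : ℝ) ^ c⌋₊ : ℕ) : ℝ) ≤ (N : ℝ) ^ c := Nat.floor_le (by positivity)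
    push_cast
    have h3 : (0 : ℝ) ≤ R' := by positivity
    nlinarith
  have h2 : ((⌊(N : ℝ) ^ c⌋₊ + R' + 2 : ℕ) : ℝ) ^ E ≤ N := by
    calc ((⌊(N : ℝ) ^ c⌋₊ + R' + 2 : ℕ) : ℝ) ^ E ≤ (((R' : ℝ) + 3) * (N : ℝ) ^ c) ^ E := pow_le_pow_left₀ (by positivity) h1 _
      _ = ((R' : ℝ) + 3) ^ E * (N : ℝ) ^ (c * E) := by
        rw [mul_pow, ← Real.rpow_natCast ((N : ℝ) ^ c), ← Real.rpow_mul hN0.le]
      _ ≤ (N : ℝ) ^ (1 / 2 : ℝ) * (N : ℝ) ^ (1 / 2 : ℝ) := by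
        refine mul_le_mul ?_ ?_ (by positivity) (by positivity)
        · have h4 : ((R' : ℝ) + 3) ^ (2 * E) ≤ N := by
            have : (R' + 3) ^ (2 * E) ≤ N := by omega
            exact_mod_cast this
          have h5 : ((R' : ℝ) + 3) ^ E = (((R' : ℝ) + 3) ^ (2 * E)) ^ (1 / 2 : ℝ) := by
            rw [mul_comm 2 E, pow_mul, ← Real.sqrt_eq_rpow, Real.sqrt_sq (by positivity)]
          rw [h5]
          exact Real.rpow_le_rpow (by positivity) h4 (by norm_num)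
        · refine Real.rpow_le_rpow_of_exponent_le hN1 ?_
          rw [hc, div_mul_eq_mul_div, one_mul, div_le_div_iff₀ (by positivity) (by norm_num)]
          linarith
      _ = N := by
        rw [← Real.rpow_add hN0]
        norm_num
  exact_mod_cast h2

theorem td_main (a b : Polynomial ℚ) (hb : b ≠ 0) (hab : ∀ c : ℚ, a ^ 3 ≠ Polynomial.C c * b ^ 2) :
    ∃ (R₀ : ℕ) (x : ℕ → MC), (∀ t, R₀ ≤ t → (x t).1 = (t : ℂ) ∧ Cv (cp a) (cp b) (x t) ∧ lam (x t) ∈ Dom) ∧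
      ∀ k δ D : ℕ, ∃ (c : ℝ) (N₀ : ℕ), 0 < c ∧ ∀ N : ℕ, N₀ ≤ N → ∀ t : Fin k → ℕ,
        (∀ j, N ≤ t j ∧ (t j : ℝ) ≤ N + (N : ℝ) ^ c) → (∀ i j, i ≠ j → t i + R₀ ≤ t j ∨ t j + R₀ ≤ t i) →
          ∀ (K : IntermediateField ℚ ℂ) [FiniteDimensional ℚ K], finrank ℚ K ≤ D →
            ∀ z : Fin k × Fin 2 × Fin 2 → ℂ, (∀ W : Submodule K ℂ, (∀ y, z y ∈ W) → ∀ l i j, PM (x (t l)) i j ∈ W) →
              ∃ σ : Fin (3 * (k - 1)) → Fin k × Fin 2 × Fin 2, Function.Injective σ ∧ LIb K δ (fun i => z (σ i)) := by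
  classical
  set n : ℕ := max a.natDegree b.natDegree with hn
  have hna : a.natDegree ≤ 4 * n := by
    have := le_max_left a.natDegree b.natDegree
    omega
  have hnb : b.natDegree ≤ 6 * n := by
    have := le_max_right a.natDegree b.natDegree
    omega
  set a' := Polynomial.reflect (4 * n) a with ha'
  set b' := Polynomial.reflect (6 * n) b with hb'
  have hb'0 : b' ≠ 0 := fun h => hb (Polynomial.reflect_eq_zero_iff.1 h)
  have hnc : ∀ c : ℂ, cp a' ^ 3 ≠ Polynomial.C c * cp b' ^ 2 := nc_refl hna hnb hb hab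
  have ha'0 : a' ≠ 0 := by
    intro h
    apply hnc 0
    rw [h]
    simp [cp]
  have hD : De a' b' ≠ 0 := by
    intro h
    apply hnc (-27 / 4)
    have h1 := congrArg cp h
    rw [De, cp, cp] at h1
    simp only [Polynomial.map_add, Polynomial.map_mul, Polynomial.map_pow, Polynomial.map_ofNat, Polynomial.map_zero] at h1
    have h2 : Polynomial.C (4 : ℂ) = 4 := map_ofNat _ 4
    have h3 : Polynomial.C (-27 / 4 : ℂ) * 4 = -27 := by
      rw [← h2, ← map_mul]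
      norm_num
      exact map_ofNat _ 27
    have h4 : (4 : Polynomial ℂ) ≠ 0 := by
      rw [← h2]
      exact Polynomial.C_ne_zero.2 (by norm_num)
    apply mul_left_cancel₀ h4
    rw [cp, cp]
    linear_combination h1 - (b'.map (algebraMap ℚ ℂ)) ^ 2 * h3
  obtain ⟨L0⟩ := ld_all ha'0 hb'0 hD
  obtain ⟨L, hN⟩ := ld_normal L0
  obtain ⟨R, hR, hY⟩ := exists_rad L ha'0 hD
  obtain ⟨u0, C, hu0, hu0R, hC, hx, hind⟩ := link2 L hb'0 hD hnc hR hY
  obtain ⟨R', hR'⟩ := td_core L ha'0 hD hR hY hu0 hu0R hC hind hN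
  obtain ⟨r, hr⟩ := exists_nat_gt (1 / u0)
  -- the points
  have hpt : ∀ t : ℕ, ∃ x' : MC, r ≤ t → t ≠ 0 ∧ x'.1 = 1 / (t : ℂ) ∧ Cv (cp a') (cp b') x' ∧ lam x' ∈ Dom ∧
      ∀ i j, PM x' i j = ∑ m, C i m * Yan L m j (1 / (t : ℂ)) := by
    intro t
    by_cases hrt : r ≤ t
    · have ht1 : 1 / u0 < (t : ℝ) := hr.trans_le (by exact_mod_cast hrt)
      have ht0 : (0 : ℝ) < t := lt_trans (by positivity) ht1
      obtain ⟨x', h1, h2, h3, h4, h5⟩ := hx (1 / (t : ℝ)) (by positivity) (by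
        rw [div_lt_iff₀ ht0]
        rw [div_lt_iff₀ hu0] at ht1
        linarith)
      have h6 : (((1 / (t : ℝ) : ℝ)) : ℂ) = 1 / (t : ℂ) := by
        push_cast
        rfl
      rw [h6] at h2 h4 h5
      refine ⟨x', fun _ => ⟨by exact_mod_cast ht0.ne', h2, h1, h3, fun i j => ?_⟩⟩
      fin_cases i
      · exact h4 j
      · exact h5 j
    · exact ⟨(0, 0, 0), fun h => absurd h hrt⟩
  choose x' hx' using hpt
  refine ⟨max R' r, fun t => mcI n t (x' t), fun t ht => ?_, fun k δ D => ?_⟩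
  · obtain ⟨h0, h1, h2, h3, -⟩ := hx' t ((le_max_right _ _).trans ht)
    exact ⟨rfl, mcI_Cv h0 hna hnb h1 h2, by rw [mcI_lam h0]; exact h3⟩
  · obtain ⟨E, hE⟩ := hR' k δ D
    obtain ⟨c, N₀, hc, hw⟩ := window E R'
    refine ⟨c, max N₀ r, hc, ?_⟩
    intro N hN t ht hsep K _ hK z hz
    have hN0 : N₀ ≤ N := (le_max_left _ _).trans hN
    have hNr : r ≤ N := (le_max_right _ _).trans hN
    have hle : ∀ j, t j ≤ N + ⌊(N : ℝ) ^ c⌋₊ := by
      intro j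
      have h1 := (ht j).2
      have h2 : ((t j - N : ℕ) : ℝ) ≤ (N : ℝ) ^ c := by
        rw [Nat.cast_sub (ht j).1]
        linarith
      have h3 := Nat.le_floor h2
      have := (ht j).1
      omega
    set H := ⌊(N : ℝ) ^ c⌋₊ + R' with hH
    have hTg : ∀ l, N + H - (N + H - t l) = t l := fun l => by
      have := hle l
      omega
    refine hE H (N + H) ((hw N hN0).trans (by omega)) (fun l => N + H - t l) ⟨fun l => ?_, fun l l' hll => ?_⟩ (fun l => ?_) K hK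
      (fun l => PM (x' (t l))) (fun l i j => ?_) z (fun W hW l i j => ?_)
    · have := hle l
      dsimp only
      omega
    · dsimp only
      have h1 := hle l
      have h2 := hle l'
      rcases hsep l l' hll with h | h
      · right
        have h3 : t l + R' ≤ t l' := (Nat.add_le_add_left (le_max_left _ _) _).trans h
        omega
      · left
        have h3 : t l' + R' ≤ t l := (Nat.add_le_add_left (le_max_left _ _) _).trans h
        omega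
    · have := (ht l).1
      omega
    · rw [hTg]
      exact (hx' (t l) (hNr.trans (ht l).1)).2.2.2.2 i j
    · have h0 := (hx' (t l) (hNr.trans (ht l).1)).1
      exact PM_mem h0 _ (fun i j => hz W hW l i j) i j

end Pool.Agent.Y124.TD
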