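import Pool.Agent.Y124.GE.Lc
import Pool.Agent.Y124.GE.Li

/-!
# One connection matrix for all points
-/

set_option autoImplicit false

open Filter Topology Complex

namespace Pool.Agent.Y124.TD

open Pool.Agent.Y124 Pool.Agent.Y124.GE Pool.Agent.Y120.GH

variable {a b : Polynomial ℚ}

/-- a numbering of the roots -/
theorem exists_pt (a b : ℂ) (h : 4 * a ^ 3 + 27 * b ^ 2 ≠ 0) : ∃ (e : Fin 3 → ℂ) (v : ℂ),
    (∀ x : ℂ, x ^ 3 + a * x + b = (x - e 0) * (x - e 1) * (x - e 2)) ∧ v ^ 2 = e 1 - e 0 ∧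
      (e 2 - e 0) / (e 1 - e 0) ∈ Dom := by
  obtain ⟨r, hr⟩ := three_roots a b
  have hinj := ne_of_disc hr h
  have n10 : r 1 - r 0 ≠ 0 := sub_ne_zero.2 fun h => absurd (hinj h) (by decide)
  have n20 : r 2 - r 0 ≠ 0 := sub_ne_zero.2 fun h => absurd (hinj h) (by decide)
  have n21 : r 2 - r 1 ≠ 0 := sub_ne_zero.2 fun h => absurd (hinj h) (by decide)
  have key : ∀ e : Fin 3 → ℂ, (∀ x : ℂ, x ^ 3 + a * x + b = (x - e 0) * (x - e 1) * (x - e 2)) →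
      (e 2 - e 0) / (e 1 - e 0) ∈ slitPlane → 1 - (e 2 - e 0) / (e 1 - e 0) ∈ slitPlane →
      ∃ (e : Fin 3 → ℂ) (v : ℂ), (∀ x : ℂ, x ^ 3 + a * x + b = (x - e 0) * (x - e 1) * (x - e 2)) ∧ v ^ 2 = e 1 - e 0 ∧
        (e 2 - e 0) / (e 1 - e 0) ∈ Dom := by
    intro e h1 h2 h3
    obtain ⟨v, hv⟩ := IsAlgClosed.exists_pow_nat_eq (e 1 - e 0) (n := 2) (by norm_num)
    exact ⟨e, v, h1, hv, h2, h3⟩
  have hreal : ∀ x : ℝ, 0 < x → x < 1 → (x : ℂ) ∈ slitPlane ∧ 1 - (x : ℂ) ∈ slitPlane := by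
    intro x h0 h1
    refine ⟨ofReal_mem_slitPlane.2 h0, ?_⟩
    have : 1 - (x : ℂ) = ((1 - x : ℝ) : ℂ) := by push_cast; ring
    rw [this]
    exact ofReal_mem_slitPlane.2 (by linarith)
  set l := (r 2 - r 0) / (r 1 - r 0) with hl
  have hl20 : r 2 - r 0 = l * (r 1 - r 0) := by rw [hl, div_mul_cancel₀ _ n10]
  by_cases him : l.im = 0
  · have hlr : l = ((l.re : ℝ) : ℂ) := Complex.ext rfl (by rw [him]; simp)
    set x := l.re with hx
    have hx0 : x ≠ 0 := by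
      intro h0
      rw [h0] at hlr
      rw [hlr] at hl20
      exact n20 (by rw [hl20]; simp)
    have hx1 : x ≠ 1 := by
      intro h1
      rw [h1] at hlr
      rw [hlr, ofReal_one, one_mul] at hl20
      apply n21
      linear_combination hl20
    rcases lt_or_gt_of_ne hx0 with hneg | hpos
    · -- `r 0` is in the middle
      have e1 : (![r 1, r 2, r 0] 2 - ![r 1, r 2, r 0] 0) / (![r 1, r 2, r 0] 1 - ![r 1, r 2, r 0] 0) = (((1 - x)⁻¹ : ℝ) : ℂ) := by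
        show (r 0 - r 1) / (r 2 - r 1) = _
        have h2 : r 2 - r 1 = (l - 1) * (r 1 - r 0) := by linear_combination hl20
        have h3 : l - 1 ≠ 0 := by
          intro h0
          rw [h0, zero_mul] at h2
          exact n21 h2
        have h4 : (1 : ℂ) - x ≠ 0 := by
          rw [← hlr]
          intro h0
          apply h3
          linear_combination -h0
        rw [h2]
        push_cast
        rw [← hlr] at h4 ⊢
        rw [div_eq_iff (mul_ne_zero h3 n10)]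
        field_simp
        ring
      obtain ⟨k1, k2⟩ := hreal (1 - x)⁻¹ (by apply inv_pos.2; linarith) (inv_lt_one_of_one_lt₀ (by linarith))
      refine key ![r 1, r 2, r 0] (fun y => ?_) (by rw [e1]; exact k1) (by rw [e1]; exact k2)
      rw [hr]
      show _ = (y - r 1) * (y - r 2) * (y - r 0)
      ring
    · rcases lt_or_gt_of_ne hx1 with h1 | h1
      · obtain ⟨k1, k2⟩ := hreal x hpos h1
        rw [← hlr] at k1 k2
        exact key r hr k1 k2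
      · have e1 : (![r 0, r 2, r 1] 2 - ![r 0, r 2, r 1] 0) / (![r 0, r 2, r 1] 1 - ![r 0, r 2, r 1] 0) = ((x⁻¹ : ℝ) : ℂ) := by
          show (r 1 - r 0) / (r 2 - r 0) = _
          push_cast
          rw [← hlr, hl, inv_div]
        obtain ⟨k1, k2⟩ := hreal x⁻¹ (inv_pos.2 hpos) (inv_lt_one_of_one_lt₀ h1)
        refine key ![r 0, r 2, r 1] (fun y => ?_) (by rw [e1]; exact k1) (by rw [e1]; exact k2)
        rw [hr]
        show _ = (y - r 0) * (y - r 2) * (y - r 1)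
        ring
  · refine key r hr (mem_slitPlane_iff.2 (Or.inr him)) (mem_slitPlane_iff.2 (Or.inr ?_))
    rw [sub_im, one_im, zero_sub]
    exact neg_ne_zero.2 him

/-- one connection matrix for all points -/
theorem link2 (L : LD a b) (hb : b ≠ 0) (hD : De a b ≠ 0) (hnc : ∀ c : ℂ, cp a ^ 3 ≠ Polynomial.C c * cp b ^ 2) {R : ℝ}
    (hR : 1 ≤ R) (hY : ∀ i j, cx (L.Y i j) ∈ Cw R) :
    ∃ (u0 : ℝ) (C : Fin 2 → Fin 2 → ℂ), 0 < u0 ∧ u0 ≤ 1 / R ∧ C 0 0 * C 1 1 - C 0 1 * C 1 0 ≠ 0 ∧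
      (∀ u : ℝ, 0 < u → u < u0 → ∃ x : MC, Cv (cp a) (cp b) x ∧ x.1 = (u : ℂ) ∧ lam x ∈ Dom ∧
        (∀ j, row (lam x) x.2.2 j = ∑ i, C 0 i * Yan L i j u) ∧
        ∀ j, row (1 - lam x) (-I * x.2.2) j = ∑ i, C 1 i * Yan L i j u) ∧
      ∀ u : ℝ, 0 < u → u < u0 → LocInd (fun p s => xs L p s) (u : ℂ) := by
  classical
  have hR0 : 0 < R := by linarith
  obtain ⟨v1, hv1, hv1'⟩ := no_roots_q hb
  obtain ⟨v2, hv2, hv2'⟩ := no_roots_q hD
  obtain ⟨n, w0, hw0, -, hdet⟩ := det_mono L hD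
  set u0 := min (1 / R) (min v1 v2) with hu0
  have hu00 : 0 < u0 := lt_min (by positivity) (lt_min hv1 hv2)
  have hb' : ∀ u : ℝ, 0 < u → u < u0 → (cp b).eval (u : ℂ) ≠ 0 := fun u k1 k2 =>
    hv1' u k1 (k2.trans_le ((min_le_right _ _).trans (min_le_left _ _)))
  have hD' : ∀ u : ℝ, 0 < u → u < u0 → (cp (De a b)).eval (u : ℂ) ≠ 0 := fun u k1 k2 =>
    hv2' u k1 (k2.trans_le ((min_le_right _ _).trans (min_le_right _ _)))
  have hu1 : ∀ u : ℝ, u < u0 → u < 1 / R := fun u k => k.trans_le (min_le_left _ _)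
  -- constancy
  have hconst : ∀ u u' : ℝ, 0 < u → u < u0 → 0 < u' → u' < u0 → FS L u = FS L u' := by
    have : PreconnectedSpace (Set.Ioo (0 : ℝ) u0) := Subtype.preconnectedSpace isPreconnected_Ioo
    have hlc : IsLocallyConstant (fun u : Set.Ioo (0 : ℝ) u0 => FS L (u : ℝ)) := by
      rw [IsLocallyConstant.iff_eventually_eq]
      intro u
      have h1 := FS_loc L hR hY u.2.1 (hu1 _ u.2.2) (hD' _ u.2.1 u.2.2) (hb' _ u.2.1 u.2.2)
      exact (continuous_subtype_val.tendsto u).eventually h1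
    intro u u' h1 h2 h3 h4
    exact hlc.apply_eq_of_preconnectedSpace ⟨u, h1, h2⟩ ⟨u', h3, h4⟩
  have hh : 0 < u0 / 2 := by linarith
  have hh' : u0 / 2 < u0 := by linarith
  -- a point
  obtain ⟨C, hC⟩ : (FS L (u0 / 2)).Nonempty := by
    obtain ⟨e, v, h1, h2, h3⟩ := exists_pt ((cp a).eval ((u0 / 2 : ℝ) : ℂ)) ((cp b).eval ((u0 / 2 : ℝ) : ℂ)) (by
      rw [← cp_De]
      exact hD' _ hh hh')
    exact ⟨_, (((u0 / 2 : ℝ) : ℂ), e, v), ⟨h1, h2⟩, rfl, h3, rfl⟩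
  have hchart : ∀ u : ℝ, 0 < u → u < u0 → LocInd (fun p s => xs L p s) (u : ℂ) ∧ C 0 0 * C 1 1 - C 0 1 * C 1 0 ≠ 0 := by
    intro u h0 h1
    rw [hconst (u0 / 2) u hh hh' h0 h1] at hC
    obtain ⟨x, hx, hx1, hxl, rfl⟩ := hC
    obtain ⟨e, w, c1, c2, c3, c4, c5⟩ := charts a b u (hD' _ h0 h1) (hb' _ h0 h1)
    obtain ⟨κ, rfl⟩ := c4.self_of_nhds x hx hx1
    have hs : (u : ℂ) ∈ slitPlane := by rw [ofReal_mem_slitPlane]; exact h0
    have hs1 : ‖(u : ℂ)‖ < 1 / R := by rw [norm_real, Real.norm_of_nonneg h0.le]; exact hu1 _ h1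
    have hEQ := c3.mono fun s hs => (hs κ).2
    have k2 := cm_const L hR hY (l := fun s => (e (κ.1.1 2) s - e (κ.1.1 0) s) / (e (κ.1.1 1) s - e (κ.1.1 0) s)) (v := w κ)
      hs hs1 (hD' _ h0 h1) (c1 κ) (c2 κ).1 hxl (c2 κ).2 hEQ
    have h3 : ∀ᶠ s in 𝓝 (u : ℂ), s ∈ slitPlane := isOpen_slitPlane.mem_nhds hs
    have h4 : ∀ᶠ s in 𝓝 (u : ℂ), ‖s‖ < 1 / R := continuous_norm.continuousAt.eventually_lt_const hs1
    refine xs_locInd L hR hY hb hnc hdet hs hs1 (c1 κ) (c2 κ).1 hxl (c2 κ).2 hEQ ?_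
    filter_upwards [k2, h3, h4] with s j2 j3 j4 y
    have h5 := pf_fv L (det_Yan L hR hY hw0 hdet (slitPlane_ne_zero j3) j4)
      ((e (κ.1.1 2) s - e (κ.1.1 0) s) / (e (κ.1.1 1) s - e (κ.1.1 0) s)) (w κ s) y
    rw [h5, j2]
    rfl
  refine ⟨u0, C, hu00, min_le_left _ _, (hchart _ hh hh').2, ?_, fun u h0 h1 => (hchart u h0 h1).1⟩
  intro u h0 h1
  rw [hconst (u0 / 2) u hh hh' h0 h1] at hC
  obtain ⟨x, hx, hx1, hxl, rfl⟩ := hC
  have hW := det_Yan L hR hY hw0 hdet (u := (u : ℂ)) (by exact_mod_cast h0.ne') (by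
    rw [norm_real, Real.norm_of_nonneg h0.le]
    exact hu1 _ h1)
  exact ⟨x, hx, hx1, hxl, fun j => cf_recon L hW (row (lam x) x.2.2) j, fun j => cf_recon L hW (row (1 - lam x) (-I * x.2.2)) j⟩

end Pool.Agent.Y124.TD
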