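import Pool.Agent.Y124.TD.Gr

/-!
# Maximal independent families in bounded degree
-/

set_option autoImplicit false

open Module Finset

namespace Pool.Agent.Y124.TD

open Pool.Agent.Y120.GF

/-- no nontrivial relation of degree at most `δ` in each variable -/
def LIb (K : IntermediateField ℚ ℂ) (δ : ℕ) {e : ℕ} (z : Fin e → ℂ) : Prop :=
  LinearIndependent K (fun s : Fin e → Fin (δ + 1) => ∏ i, z i ^ (s i : ℕ))

variable {K : IntermediateField ℚ ℂ}

/-- adding several numbers -/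
lemma gr_fam (c : ℕ) : ∀ (e e₀ : ℕ) (W : Submodule K ℂ), (1 : ℂ) ∈ W → GR c e₀ W → ∀ z : Fin e → ℂ,
    ∃ W' : Submodule K ℂ, W ≤ W' ∧ (∀ i, z i ∈ W') ∧ GR c (e₀ + e) W' := by
  intro e
  induction e with
  | zero =>
    intro e₀ W _ h z
    exact ⟨W, le_rfl, fun i => i.elim0, h⟩
  | succ e ih =>
    intro e₀ W h1 h z
    obtain ⟨W', h2, h3, h4⟩ := ih (e₀ + 1) (W ⊔ Submodule.span K {z 0}) (Submodule.mem_sup_left h1) (gr_trans h1 h (z 0)) (fun i => z i.succ)
    refine ⟨W', le_sup_left.trans h2, fun i => ?_, ?_⟩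
    · refine Fin.cases ?_ ?_ i
      · exact h2 (Submodule.mem_sup_right (Submodule.mem_span_singleton_self _))
      · exact h3
    · rwa [show e₀ + (e + 1) = e₀ + 1 + e by ring]

/-- the relation of a dependent number -/
lemma rel_of_dep {δ e : ℕ} {W : Submodule K ℂ} (h1 : (1 : ℂ) ∈ W) {z : Fin e → ℂ} (hz : ∀ i, z i ∈ W) (h : LIb K δ z) {w : ℂ}
    (hn : ¬ LIb K δ (Fin.cons w z : Fin (e + 1) → ℂ)) : ∃ (m : ℕ) (l : ℂ) (κ : ℕ → ℂ), m + 1 ≤ δ ∧ l ≠ 0 ∧ l ∈ W ^ (δ * e) ∧
      (∀ j, κ j ∈ W ^ (δ * e)) ∧ l * w ^ (m + 1) = ∑ j ∈ range (m + 1), κ j * w ^ j := by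
  classical
  rw [LIb, Fintype.linearIndependent_iff] at hn
  push Not at hn
  obtain ⟨g, hg, i0, hi0⟩ := hn
  -- the coefficients
  set c : ℕ → ℂ := fun j => if hj : j < δ + 1 then ∑ s : Fin e → Fin (δ + 1), g (Fin.cons ⟨j, hj⟩ s) • ∏ i, z i ^ (s i : ℕ) else 0 with hc
  have hcm : ∀ j, c j ∈ W ^ (δ * e) := by
    intro j
    rw [hc]
    dsimp only
    split_ifs with hj
    · refine Submodule.sum_mem _ fun s _ => Submodule.smul_mem _ _ ?_
      have h2 := mem_pow_prod (W := W) Finset.univ (fun _ : Fin e => δ) (fun i => z i ^ (s i : ℕ)) (by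
        intro i _
        refine pow_mem_mono h1 (Nat.lt_succ_iff.1 (s i).2) ?_
        have := mem_pow_pow (W := W) (d := 1) (x := z i) (by rw [pow_one]; exact hz i) (s i : ℕ)
        rwa [one_mul] at this)
      rw [Finset.sum_const, Finset.card_univ, Fintype.card_fin, smul_eq_mul, mul_comm] at h2
      exact h2
    · exact Submodule.zero_mem _
  have hsum : ∑ j ∈ range (δ + 1), c j * w ^ j = 0 := by
    rw [← Fin.sum_univ_eq_sum_range (fun j => c j * w ^ j) (δ + 1), ← hg, ← Equiv.sum_comp (Fin.consEquiv fun _ : Fin (e + 1) => Fin (δ + 1)), Fintype.sum_prod_type]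
    refine Finset.sum_congr rfl fun j _ => ?_
    have h2 : c (j : ℕ) = ∑ s : Fin e → Fin (δ + 1), g (Fin.cons j s) • ∏ i, z i ^ (s i : ℕ) := by
      rw [hc]
      dsimp only
      rw [dif_pos j.2]
    rw [h2, Finset.sum_mul]
    refine Finset.sum_congr rfl fun s _ => ?_
    have e0 : (Fin.consEquiv fun _ : Fin (e + 1) => Fin (δ + 1)) (j, s) = Fin.cons j s := rfl
    rw [e0, Fin.prod_univ_succ]
    simp only [Fin.cons_zero, Fin.cons_succ]
    rw [smul_mul_assoc, mul_comm (w ^ (j : ℕ))]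
  have hne : ∃ j, c j ≠ 0 := by
    refine ⟨(i0 0 : ℕ), fun h0 => ?_⟩
    rw [hc] at h0
    dsimp only at h0
    rw [dif_pos (i0 0).2] at h0
    have h2 := (Fintype.linearIndependent_iff.1 h) (fun s => g (Fin.cons (i0 0) s)) h0 (Fin.tail i0)
    apply hi0
    have h3 : (Fin.cons (i0 0) (Fin.tail i0) : Fin (e + 1) → Fin (δ + 1)) = i0 := Fin.cons_self_tail i0
    rw [← h3]
    exact h2
  have hbd : ∀ j, c j ≠ 0 → j ≤ δ := by
    intro j hj
    by_contra hlt
    apply hj
    rw [hc]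
    dsimp only
    rw [dif_neg (by omega)]
  obtain ⟨j0, hj0⟩ := hne
  set M := Nat.findGreatest (fun j => c j ≠ 0) δ with hM
  have hcM : c M ≠ 0 := Nat.findGreatest_spec (P := fun j => c j ≠ 0) (hbd j0 hj0) hj0
  have hMgt : ∀ j, M < j → c j = 0 := by
    intro j hj
    by_contra hne
    exact Nat.findGreatest_is_greatest hj (hbd j hne) hne
  have hMδ : M ≤ δ := Nat.findGreatest_le δ
  have hsum2 : ∑ j ∈ range (M + 1), c j * w ^ j = 0 := by
    rw [← hsum]
    refine Finset.sum_subset (Finset.range_mono (by omega)) fun j _ hj => ?_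
    rw [hMgt j (by
      rw [Finset.mem_range] at hj
      omega), zero_mul]
  rcases Nat.eq_zero_or_pos M with h0 | hpos
  · exfalso
    rw [h0] at hsum2 hcM
    simp only [zero_add, Finset.sum_range_one, pow_zero, mul_one] at hsum2
    exact hcM hsum2
  · obtain ⟨m, hm⟩ : ∃ m, M = m + 1 := ⟨M - 1, by omega⟩
    refine ⟨m, c M, fun j => -c j, by omega, hcM, hcm M, fun j => Submodule.neg_mem _ (hcm j), ?_⟩
    rw [Finset.sum_range_succ] at hsum2
    rw [← hm]
    simp only [neg_mul, Finset.sum_neg_distrib]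
    linear_combination hsum2

/-- a maximal independent subfamily -/
lemma exists_max (K : IntermediateField ℚ ℂ) (δ : ℕ) {ι : Type} [Fintype ι] (z : ι → ℂ) : ∃ (e : ℕ) (σ : Fin e → ι), Function.Injective σ ∧
    e ≤ Fintype.card ι ∧ LIb K δ (fun i => z (σ i)) ∧ ∀ a, a ∉ Set.range σ → ¬ LIb K δ (Fin.cons (z a) (fun i => z (σ i)) : Fin (e + 1) → ℂ) := by
  classical
  set P : ℕ → Prop := fun e => ∃ σ : Fin e → ι, Function.Injective σ ∧ LIb K δ (fun i => z (σ i)) with hP
  have hle : ∀ e, P e → e ≤ Fintype.card ι := by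
    rintro e ⟨σ, hσ, -⟩
    simpa using Fintype.card_le_of_injective σ hσ
  have h0 : P 0 := by
    refine ⟨fun i => i.elim0, fun i => i.elim0, ?_⟩
    rw [LIb, Fintype.linearIndependent_iff]
    intro g hg s
    rw [Fintype.sum_subsingleton _ s] at hg
    simp only [Finset.univ_eq_empty, Finset.prod_empty] at hg
    have h2 : ((g s : K) : ℂ) = 0 := by
      have h3 : g s • (1 : ℂ) = ((g s : K) : ℂ) := by
        rw [Algebra.smul_def, mul_one]
        rfl
      rw [← h3]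
      exact hg
    exact_mod_cast h2
  set e := Nat.findGreatest P (Fintype.card ι) with he
  obtain ⟨σ, hσ, hLI⟩ : P e := Nat.findGreatest_spec (P := P) (Nat.zero_le _) h0
  refine ⟨e, σ, hσ, Nat.findGreatest_le _, hLI, fun a ha hcon => ?_⟩
  have h2 : P (e + 1) := by
    refine ⟨Fin.cons a σ, ?_, ?_⟩
    · rw [Fin.cons_injective_iff]
      exact ⟨ha, hσ⟩
    · have h3 : (fun i => z ((Fin.cons a σ : Fin (e + 1) → ι) i)) = (Fin.cons (z a) (fun i => z (σ i)) : Fin (e + 1) → ℂ) := by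
        funext i
        refine Fin.cases ?_ (fun i => ?_) i
        · simp
        · simp
      rw [h3]
      exact hcon
  exact Nat.findGreatest_is_greatest (Nat.lt_succ_self e) (hle _ h2) h2

/-- the whole family has the growth of a maximal independent subfamily -/
theorem gr_max (c e₀ δ n : ℕ) : ∃ c' : ℕ, ∀ (K : IntermediateField ℚ ℂ) (W : Submodule K ℂ), (1 : ℂ) ∈ W → GR c e₀ W →
    ∀ (ι : Type) [Fintype ι], Fintype.card ι = n → ∀ (z : ι → ℂ) (e : ℕ) (σ : Fin e → ι), e ≤ Fintype.card ι →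
      LIb K δ (fun i => z (σ i)) → (∀ a, a ∉ Set.range σ → ¬ LIb K δ (Fin.cons (z a) (fun i => z (σ i)) : Fin (e + 1) → ℂ)) →
      ∃ W' : Submodule K ℂ, W ≤ W' ∧ (∀ a, z a ∈ W') ∧ GR c' (e₀ + e) W' := by
  classical
  set B : ℕ := (δ + 1) * (1 + δ * n) ^ (e₀ + n) with hB
  have hB1 : 1 ≤ B := Nat.one_le_iff_ne_zero.2 (by positivity)
  refine ⟨B ^ n * c, ?_⟩
  intro K W h1 h ι _ hn z e σ hen hLI hmax
  obtain ⟨W₁, hW₁, hz₁, hG₁⟩ := gr_fam c e e₀ W h1 h (fun i => z (σ i))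
  have h11 : (1 : ℂ) ∈ W₁ := hW₁ h1
  have key : ∀ s : Finset ι, ∃ W' : Submodule K ℂ, W₁ ≤ W' ∧ (∀ a ∈ s, z a ∈ W') ∧ GR (B ^ s.card * c) (e₀ + e) W' := by
    intro s
    induction s using Finset.induction_on with
    | empty =>
      refine ⟨W₁, le_rfl, fun a ha => absurd ha (Finset.notMem_empty _), ?_⟩
      rw [Finset.card_empty, pow_zero, one_mul]
      exact hG₁
    | insert a s ha ih =>
      obtain ⟨W', hW', hz', hG'⟩ := ih
      rw [Finset.card_insert_of_notMem ha]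
      by_cases har : a ∈ Set.range σ
      · refine ⟨W', hW', fun b hb => ?_, hG'.mono ?_⟩
        · rcases Finset.mem_insert.1 hb with rfl | hb
          · obtain ⟨i, rfl⟩ := har
            exact hW' (hz₁ i)
          · exact hz' b hb
        · rw [pow_succ, mul_assoc]
          exact Nat.mul_le_mul_left _ (Nat.le_mul_of_pos_left _ hB1)
      · obtain ⟨m, l, κ, hm, hl0, hl, hκ, hrel⟩ := rel_of_dep h11 hz₁ hLI (hmax a har)
        have h2 := gr_alg (hW' h11) hG' hl0 (mem_pow_le hW' hl) (fun j => mem_pow_le hW' (hκ j)) hrel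
        refine ⟨W' ⊔ Submodule.span K {z a}, hW'.trans le_sup_left, fun b hb => ?_, h2.mono ?_⟩
        · rcases Finset.mem_insert.1 hb with rfl | hb
          · exact Submodule.mem_sup_right (Submodule.mem_span_singleton_self _)
          · exact Submodule.mem_sup_left (hz' b hb)
        · have h3 : (m + 1) * (1 + δ * e) ^ (e₀ + e) ≤ B := by
            refine Nat.mul_le_mul (by omega) ?_
            have h4 : 1 + δ * e ≤ 1 + δ * n := by
              have : δ * e ≤ δ * n := Nat.mul_le_mul_left _ (hn ▸ hen)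
              omega
            exact (Nat.pow_le_pow_left h4 _).trans (Nat.pow_le_pow_right (by omega) (by omega))
          calc (m + 1) * (1 + δ * e) ^ (e₀ + e) * (B ^ s.card * c) ≤ B * (B ^ s.card * c) := Nat.mul_le_mul_right _ h3
            _ = _ := by rw [pow_succ]; ring
  obtain ⟨W', hW', hz', hG'⟩ := key Finset.univ
  rw [Finset.card_univ, hn] at hG'
  exact ⟨W', hW₁.trans hW', fun a => hz' a (Finset.mem_univ _), hG'⟩

/-- several algebraic numbers -/
theorem gr_algs (c e d m n : ℕ) : ∃ c' : ℕ, ∀ (K : IntermediateField ℚ ℂ) (W : Submodule K ℂ), (1 : ℂ) ∈ W → GR c e W →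
    ∀ w : Fin n → ℂ, (∀ i, ∃ (l : ℂ) (κ : ℕ → ℂ), l ≠ 0 ∧ l ∈ W ^ d ∧ (∀ j, κ j ∈ W ^ d) ∧
      l * w i ^ (m + 1) = ∑ j ∈ range (m + 1), κ j * w i ^ j) → ∃ W' : Submodule K ℂ, W ≤ W' ∧ (∀ i, w i ∈ W') ∧ GR c' e W' := by
  classical
  induction n with
  | zero =>
    refine ⟨c, ?_⟩
    intro K W h1 h w _
    exact ⟨W, le_rfl, fun i => i.elim0, h⟩
  | succ n ih =>
    obtain ⟨c', hc'⟩ := ih
    refine ⟨(m + 1) * (1 + d) ^ e * c', ?_⟩
    intro K W h1 h w hw
    obtain ⟨W', h2, h3, h4⟩ := hc' K W h1 h (fun i => w i.succ) fun i => hw i.succ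
    obtain ⟨l, κ, hl0, hl, hκ, hrel⟩ := hw 0
    refine ⟨W' ⊔ Submodule.span K {w 0}, h2.trans le_sup_left, fun i => ?_,
      gr_alg (h2 h1) h4 hl0 (mem_pow_le h2 hl) (fun j => mem_pow_le h2 (hκ j)) hrel⟩
    refine Fin.cases ?_ (fun i => ?_) i
    · exact Submodule.mem_sup_right (Submodule.mem_span_singleton_self _)
    · exact Submodule.mem_sup_left (h3 i)

end Pool.Agent.Y124.TD
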