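import Pool.Agent.Y124.TD.Bs3
import Pool.Agent.Y124.TD.Mx
import Pool.Agent.Y124.TD.Lk2

/-!
# The truncated transcendence degree of the periods at several points
-/

set_option autoImplicit false

open Module Finset

namespace Pool.Agent.Y124.TD

open Pool.Agent.Y124 Pool.Agent.Y124.GE Pool.Agent.Y120.GF Pool.Agent.Y120.GH

variable {a b : Polynomial ℚ}

section Gr
variable {K : IntermediateField ℚ ℂ}

lemma GR.mono_exp {c e e' : ℕ} (he : e ≤ e') {W : Submodule K ℂ} (h : GR c e W) : GR c e' W := by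
  intro n
  obtain ⟨q, F, h1, h2, h3, h4⟩ := h n
  exact ⟨q, F, h1, h2, h3.trans (Nat.mul_le_mul_left _ (Nat.pow_le_pow_right (Nat.succ_pos n) he)), h4⟩

/-- the four entries of a matrix with rational determinant -/
lemma gr_four {c e : ℕ} {W : Submodule K ℂ} (h1 : (1 : ℂ) ∈ W) (h : GR c e W) (y : Fin 2 → Fin 2 → ℂ) (q : ℚ) (hq : q ≠ 0)
    (hy : y 0 0 * y 1 1 - y 0 1 * y 1 0 = q) : ∃ W' : Submodule K ℂ, W ≤ W' ∧ (∀ i j, y i j ∈ W') ∧
      GR ((0 + 1) * (1 + 2) ^ (e + 3) * c) (e + 3) W' := by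
  classical
  obtain ⟨z, w, s, hs, hz0, hzw, hall⟩ : ∃ (z : Fin 3 → ℂ) (w : ℂ) (s : ℚ), s ≠ 0 ∧ z 0 ≠ 0 ∧ z 0 * w = (s : ℂ) + z 1 * z 2 ∧
      ∀ i j, (∃ m, y i j = z m) ∨ y i j = w := by
    by_cases h0 : y 0 0 = 0
    · have h01 : y 0 1 ≠ 0 := by
        intro h2
        rw [h0, h2, zero_mul, zero_mul, sub_zero] at hy
        exact hq (by exact_mod_cast hy.symm)
      refine ⟨![y 0 1, y 0 0, y 1 1], y 1 0, -q, neg_ne_zero.2 hq, h01, ?_, ?_⟩
      · show y 0 1 * y 1 0 = ((-q : ℚ) : ℂ) + y 0 0 * y 1 1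
        push_cast
        linear_combination -hy
      · intro i j
        fin_cases i <;> fin_cases j
        · exact Or.inl ⟨1, rfl⟩
        · exact Or.inl ⟨0, rfl⟩
        · exact Or.inr rfl
        · exact Or.inl ⟨2, rfl⟩
    · refine ⟨![y 0 0, y 0 1, y 1 0], y 1 1, q, hq, h0, ?_, ?_⟩
      · show y 0 0 * y 1 1 = (q : ℂ) + y 0 1 * y 1 0
        linear_combination hy
      · intro i j
        fin_cases i <;> fin_cases j
        · exact Or.inl ⟨0, rfl⟩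
        · exact Or.inl ⟨1, rfl⟩
        · exact Or.inl ⟨2, rfl⟩
        · exact Or.inr rfl
  obtain ⟨W₁, hW₁, hz₁, hG₁⟩ := gr_fam c 3 e W h1 h z
  have h11 : (1 : ℂ) ∈ W₁ := hW₁ h1
  have hzz : ∀ m, z m ∈ W₁ ^ 1 := fun m => by rw [pow_one]; exact hz₁ m
  have hκ : (s : ℂ) + z 1 * z 2 ∈ W₁ ^ 2 := by
    refine Submodule.add_mem _ ?_ ?_
    · have h2 : (s : ℂ) = (algebraMap ℚ K s) • (1 : ℂ) := by
        rw [Algebra.smul_def, mul_one]
        rfl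
      rw [h2]
      exact Submodule.smul_mem _ _ (one_mem_pow h11 2)
    · exact pow_mem_add (hzz 1) (hzz 2)
  refine ⟨W₁ ⊔ Submodule.span K {w}, hW₁.trans le_sup_left, fun i j => ?_,
    gr_alg (m := 0) (d := 2) h11 hG₁ hz0 (pow_mem_mono h11 (by norm_num) (hzz 0)) (κ := fun _ => (s : ℂ) + z 1 * z 2) (fun _ => hκ) ?_⟩
  · rcases hall i j with ⟨m, hm⟩ | hw
    · rw [hm]
      exact Submodule.mem_sup_left (hz₁ m)
    · rw [hw]
      exact Submodule.mem_sup_right (Submodule.mem_span_singleton_self _)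
  · rw [zero_add, Finset.sum_range_one, pow_one, pow_zero, mul_one]
    exact hzw

theorem gr_li' (c e r d : ℕ) (her : e < r) : ∃ N : ℕ, ∀ (K : IntermediateField ℚ ℂ) (W : Submodule K ℂ), (1 : ℂ) ∈ W → GR c e W →
    ∀ (ι : Type) [Fintype ι], Fintype.card ι = r → ∀ (x : ι → ℂ) (p : ℂ), p ≠ 0 → p ∈ W ^ d → (∀ i, p * x i ∈ W ^ d) →
      ¬ LinearIndependent ℚ (fun s : ι → Fin (N + 1) => ∏ i, x i ^ (s i : ℕ)) := by
  obtain ⟨N, hN⟩ := gr_li c e r d her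
  refine ⟨N, ?_⟩
  intro K W h1 h ι _ hι x p hp0 hp hpx hLI
  let φ : Fin r ≃ ι := (Fintype.equivFinOfCardEq hι).symm
  refine hN K W h1 h (fun i => x (φ i)) p hp0 hp (fun i => hpx _) ?_
  have h2 := hLI.comp (fun (s : Fin r → Fin (N + 1)) (i : ι) => s (φ.symm i)) (by
    intro s s' hss
    funext i
    have h3 := congrFun hss (φ i)
    simpa using h3)
  have h4 : (fun s : Fin r → Fin (N + 1) => ∏ i, x (φ i) ^ (s i : ℕ)) =
      (fun s : ι → Fin (N + 1) => ∏ i, x i ^ (s i : ℕ)) ∘ fun (s : Fin r → Fin (N + 1)) (i : ι) => s (φ.symm i) := by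
    funext s
    show _ = ∏ i, x i ^ (s (φ.symm i) : ℕ)
    rw [← Equiv.prod_comp φ (fun i => x i ^ (s (φ.symm i) : ℕ))]
    refine Finset.prod_congr rfl fun i _ => ?_
    rw [Equiv.symm_apply_apply]
  rw [h4]
  exact h2

end Gr

/-! ## the relation of the local solutions and the periods -/

/-- the adjugate times the matrix -/
def Gm (P' P : Fin 2 → Fin 2 → ℂ) (k j : Fin 2) : ℂ :=
  ![![P' 1 1, -P' 0 1], ![-P' 1 0, P' 0 0]] k 0 * P 0 j + ![![P' 1 1, -P' 0 1], ![-P' 1 0, P' 0 0]] k 1 * P 1 j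

/-- the local solution times it -/
noncomputable def Zm (L : LD a b) (u' : ℂ) (P' P : Fin 2 → Fin 2 → ℂ) (l j : Fin 2) : ℂ := ∑ k, yv L l k u' * Gm P' P k j

lemma rel_Y (L : LD a b) {u u' : ℂ} {C P P' : Fin 2 → Fin 2 → ℂ} (hP : ∀ i j, P i j = ∑ k, C i k * Yan L k j u)
    (hP' : ∀ i j, P' i j = ∑ k, C i k * Yan L k j u') (i j : Fin 2) :
    (P' 0 0 * P' 1 1 - P' 0 1 * P' 1 0) * yv L i j u = Complex.exp ((Complex.log u - Complex.log u') / 12) ^ (L.m i) *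
      (Zm L u' P' P i j - (Complex.log u - Complex.log u') / 12 * ∑ l, ((L.N i l : ℚ) : ℂ) * Zm L u' P' P l j) := by
  set Λ := Complex.log u with hΛ
  set Λ' := Complex.log u' with hΛ'
  set d := P' 0 0 * P' 1 1 - P' 0 1 * P' 1 0 with hd
  set r : Fin 2 → ℂ := fun i => Complex.exp ((Λ - Λ') / 12) ^ (L.m i) with hr
  -- the first identity
  have h1 : ∀ i j, d * Yan L i j u = ∑ k, Yan L i k u' * Gm P' P k j := by
    intro i j
    rw [hd]
    simp only [Gm, hP, hP', Fin.sum_univ_two]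
    fin_cases i
    · simp only [Fin.zero_eta, Matrix.cons_val_zero, Matrix.cons_val_one, Matrix.cons_val_fin_one]
      ring
    · simp only [Fin.mk_one, Matrix.cons_val_zero, Matrix.cons_val_one, Matrix.cons_val_fin_one]
      ring
  have hNN : ∀ i j, ((L.N i 0 : ℚ) : ℂ) * ((L.N 0 j : ℚ) : ℂ) + ((L.N i 1 : ℚ) : ℂ) * ((L.N 1 j : ℚ) : ℂ) = 0 := by
    intro i j
    have h2 := congrFun (congrFun L.hN i) j
    rw [Matrix.mul_apply, Fin.sum_univ_two, Matrix.zero_apply] at h2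
    exact_mod_cast congrArg (fun q : ℚ => (q : ℂ)) h2
  have hmN : ∀ i l, ((L.N i l : ℚ) : ℂ) * r l = ((L.N i l : ℚ) : ℂ) * r i := by
    intro i l
    by_cases h0 : L.N i l = 0
    · rw [h0, Rat.cast_zero, zero_mul, zero_mul]
    · rw [hr]
      dsimp only
      rw [L.hm i l h0]
  -- the exponentials
  have hexp : ∀ i, Complex.exp (-((L.m i : ℂ) * Λ' / 12)) = r i * Complex.exp (-((L.m i : ℂ) * Λ / 12)) := by
    intro i
    rw [hr]
    dsimp only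
    rw [← Complex.exp_nat_mul, ← Complex.exp_add]
    congr 1
    ring
  have h2 : ∀ i j, d * Xt L i j u = r i * ∑ k, Xt L i k u' * Gm P' P k j := by
    intro i j
    have h3 := h1 i j
    simp only [Yan, ← hΛ, ← hΛ', Fin.sum_univ_two] at h3
    rw [hexp] at h3
    apply mul_left_cancel₀ (Complex.exp_ne_zero (-((L.m i : ℂ) * Λ / 12)))
    rw [Fin.sum_univ_two]
    linear_combination h3
  have hX : ∀ i j, Xt L i j u = yv L i j u + Λ / 12 * (((L.N i 0 : ℚ) : ℂ) * yv L 0 j u + ((L.N i 1 : ℚ) : ℂ) * yv L 1 j u) := by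
    intro i j
    rw [Xt, Fin.sum_univ_two]
  have hX' : ∀ i j, Xt L i j u' = yv L i j u' + Λ' / 12 * (((L.N i 0 : ℚ) : ℂ) * yv L 0 j u' + ((L.N i 1 : ℚ) : ℂ) * yv L 1 j u') := by
    intro i j
    rw [Xt, Fin.sum_univ_two]
  have hZ : ∀ i, ∑ k, Xt L i k u' * Gm P' P k j = Zm L u' P' P i j +
      Λ' / 12 * (((L.N i 0 : ℚ) : ℂ) * Zm L u' P' P 0 j + ((L.N i 1 : ℚ) : ℂ) * Zm L u' P' P 1 j) := by
    intro i
    simp only [Zm, hX', Fin.sum_univ_two]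
    ring
  have e0 := h2 0 j
  have e1 := h2 1 j
  have ei := h2 i j
  rw [hZ] at e0 e1 ei
  rw [Fin.sum_univ_two]
  have n0 := hNN i 0
  have n1 := hNN i 1
  have m0 := hmN i 0
  have m1 := hmN i 1
  have x0 := hX 0 j
  have x1 := hX 1 j
  have xi := hX i j
  show d * yv L i j u = r i * _
  set Z0 := Zm L u' P' P 0 j
  set Z1 := Zm L u' P' P 1 j
  set Zi := Zm L u' P' P i j
  -- `yv = Xt - Λ / 12 N Xt`
  have hy : yv L i j u = Xt L i j u - Λ / 12 * (((L.N i 0 : ℚ) : ℂ) * Xt L 0 j u + ((L.N i 1 : ℚ) : ℂ) * Xt L 1 j u) := by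
    rw [xi, x0, x1]
    linear_combination (Λ / 12) ^ 2 * yv L 0 j u * n0 + (Λ / 12) ^ 2 * yv L 1 j u * n1
  rw [hy]
  linear_combination ei - Λ / 12 * ((L.N i 0 : ℚ) : ℂ) * e0 - Λ / 12 * ((L.N i 1 : ℚ) : ℂ) * e1 -
    Λ / 12 * (Z0 + Λ' / 12 * (((L.N 0 0 : ℚ) : ℂ) * Z0 + ((L.N 0 1 : ℚ) : ℂ) * Z1)) * m0 -
    Λ / 12 * (Z1 + Λ' / 12 * (((L.N 1 0 : ℚ) : ℂ) * Z0 + ((L.N 1 1 : ℚ) : ℂ) * Z1)) * m1 -
    r i * Λ / 12 * Λ' / 12 * Z0 * n0 - r i * Λ / 12 * Λ' / 12 * Z1 * n1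

end Pool.Agent.Y124.TD
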