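import Pool.Agent.Y124.TD.Ap

/-!
# The lower bound
-/

set_option autoImplicit false

open Module Finset

namespace Pool.Agent.Y124.TD

open Pool.Agent.Y124 Pool.Agent.Y124.GE Pool.Agent.Y120.GF Pool.Agent.Y120.GH

variable {a b : Polynomial ℚ}

lemma det_yv (L : LD a b) {R : ℝ} (hR : 1 ≤ R) (hY : ∀ i j, cx (L.Y i j) ∈ Cw R) {n : ℕ} {w : ℚ}
    (h : L.Y 0 0 * L.Y 1 1 - L.Y 0 1 * L.Y 1 0 = PowerSeries.C w * PowerSeries.X ^ n) {u : ℂ} (hu0 : u ≠ 0) (hu : ‖u‖ < 1 / R) :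
    yv L 0 0 u * yv L 1 1 u - yv L 0 1 u * yv L 1 0 u = (w : ℂ) * u ^ n := by
  have h1 := det_Xt L hR hY h hu0 hu
  have hn := nil_tr L.hN
  have t1 : ((L.N 0 0 : ℚ) : ℂ) + ((L.N 1 1 : ℚ) : ℂ) = 0 := by exact_mod_cast hn.1
  have t2 : ((L.N 0 0 : ℚ) : ℂ) * ((L.N 1 1 : ℚ) : ℂ) - ((L.N 0 1 : ℚ) : ℂ) * ((L.N 1 0 : ℚ) : ℂ) = 0 := by exact_mod_cast hn.2
  simp only [Xt, Fin.sum_univ_two] at h1
  linear_combination h1 - (Complex.log u / 12) * (yv L 0 0 u * yv L 1 1 u - yv L 0 1 u * yv L 1 0 u) * t1 -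
    (Complex.log u / 12) ^ 2 * (yv L 0 0 u * yv L 1 1 u - yv L 0 1 u * yv L 1 0 u) * t2

/-- subfamilies -/
lemma LIb.comp {K : IntermediateField ℚ ℂ} {δ e e' : ℕ} {z : Fin e → ℂ} (h : LIb K δ z) (f : Fin e' → Fin e)
    (hf : Function.Injective f) : LIb K δ (fun i => z (f i)) := by
  classical
  have h2 := LinearIndependent.comp h (fun s : Fin e' → Fin (δ + 1) => Function.extend f s (fun _ => 0)) (by
    intro s s' hss
    funext i
    have h3 := congrFun hss (f i)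
    simp only [hf.extend_apply] at h3
    exact h3)
  have h4 : (fun s : Fin e' → Fin (δ + 1) => ∏ i, z (f i) ^ (s i : ℕ)) =
      (fun s : Fin e → Fin (δ + 1) => ∏ i, z i ^ (s i : ℕ)) ∘ fun s : Fin e' → Fin (δ + 1) => Function.extend f s (fun _ => 0) := by
    funext s
    show _ = ∏ i, z i ^ ((Function.extend f s (fun _ => (0 : Fin (δ + 1))) i : Fin (δ + 1)) : ℕ)
    rw [← Finset.prod_subset (Finset.subset_univ (Finset.univ.image f))]
    · rw [Finset.prod_image fun i _ j _ hij => hf hij]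
      refine Finset.prod_congr rfl fun i _ => ?_
      rw [hf.extend_apply]
    · intro i _ hi
      rw [Function.extend_apply']
      · simp
      · rintro ⟨j, rfl⟩
        exact hi (Finset.mem_image_of_mem _ (Finset.mem_univ _))
  rw [LIb, h4]
  exact h2

/-- relations in bounded degree -/
lemma LIb.mv {K : IntermediateField ℚ ℂ} {δ e : ℕ} {z : Fin e → ℂ} (h : LIb K δ z) (P : MvPolynomial (Fin e) K)
    (hP : ∀ i, P.degreeOf i ≤ δ) (h0 : MvPolynomial.aeval z P = 0) : P = 0 := by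
  classical
  let f : (Fin e → Fin (δ + 1)) → (Fin e →₀ ℕ) := fun s => Finsupp.equivFunOnFinite.symm fun i => (s i : ℕ)
  have hf : Function.Injective f := by
    intro s s' hss
    funext i
    exact Fin.ext (DFunLike.congr_fun hss i)
  have hsub : P.support ⊆ Finset.univ.image f := by
    intro m hm
    rw [Finset.mem_image]
    refine ⟨fun i => ⟨m i, Nat.lt_succ_of_le ?_⟩, Finset.mem_univ _, ?_⟩
    · refine le_trans ?_ (hP i)
      rw [MvPolynomial.degreeOf_eq_sup]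
      exact Finset.le_sup (f := fun m : Fin e →₀ ℕ => m i) hm
    · ext i
      rfl
  have h1 := (Fintype.linearIndependent_iff.1 h) (fun s => P.coeff (f s)) (by
    rw [← h0, MvPolynomial.aeval_def, MvPolynomial.eval₂_eq', Finset.sum_subset hsub, Finset.sum_image fun s _ s' _ hss => hf hss]
    · refine Finset.sum_congr rfl fun s _ => ?_
      rw [Algebra.smul_def]
      rfl
    · intro m _ hm
      rw [MvPolynomial.notMem_support_iff.1 hm, map_zero, zero_mul])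
  refine MvPolynomial.ext _ _ fun m => ?_
  rw [MvPolynomial.coeff_zero]
  by_contra hne
  obtain ⟨s, -, rfl⟩ := Finset.mem_image.1 (hsub (MvPolynomial.mem_support_iff.2 hne))
  exact hne (h1 s)

theorem td_core (L : LD a b) (ha : a ≠ 0) (hD : De a b ≠ 0) {R : ℝ} (hR : 1 ≤ R) (hY : ∀ i j, cx (L.Y i j) ∈ Cw R)
    {u0 : ℝ} {C : Fin 2 → Fin 2 → ℂ} (hu0 : 0 < u0) (hu0R : u0 ≤ 1 / R) (hC : C 0 0 * C 1 1 - C 0 1 * C 1 0 ≠ 0)
    (h : ∀ u : ℝ, 0 < u → u < u0 → LocInd (fun p s => xs L p s) (u : ℂ))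
    (hN : (∀ i j, L.N i j = 0) ∨ (L.m 0 = L.m 1 ∧ L.N 0 0 = 0 ∧ L.N 0 1 = 0 ∧ L.N 1 0 = 1 ∧ L.N 1 1 = 0)) :
    ∃ R' : ℕ, ∀ k δ D : ℕ, ∃ E : ℕ, ∀ H T : ℕ, (H + 2) ^ E ≤ T → ∀ g : Fin k → ℕ, SepR R' g → (∀ l, g l ≤ H) →
      ∀ (K : IntermediateField ℚ ℂ) [FiniteDimensional ℚ K], finrank ℚ K ≤ D →
        ∀ P : Fin k → Fin 2 → Fin 2 → ℂ, (∀ l i j, P l i j = ∑ m, C i m * Yan L m j (1 / ((T - g l : ℕ) : ℂ))) →
          ∀ z : Fin k × Fin 2 × Fin 2 → ℂ, (∀ W : Submodule K ℂ, (∀ x, z x ∈ W) → ∀ l i j, P l i j ∈ W) →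
            ∃ σ : Fin (3 * (k - 1)) → Fin k × Fin 2 × Fin 2, Function.Injective σ ∧ LIb K δ (fun i => z (σ i)) := by
  classical
  obtain ⟨R', hR'⟩ := base_Y3 L ha hD hR hY hu0 h hN
  refine ⟨R', fun k δ D => ?_⟩
  suffices key : ∃ E : ℕ, ∀ H T : ℕ, (H + 2) ^ E ≤ T → ∀ g : Fin k → ℕ, SepR R' g → (∀ l, g l ≤ H) →
      ∀ (K : IntermediateField ℚ ℂ) [FiniteDimensional ℚ K], finrank ℚ K ≤ D →
        ∀ P : Fin k → Fin 2 → Fin 2 → ℂ, (∀ l i j, P l i j = ∑ m, C i m * Yan L m j (1 / ((T - g l : ℕ) : ℂ))) →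
          ∀ z : Fin k × Fin 2 × Fin 2 → ℂ, (∀ W : Submodule K ℂ, (∀ x, z x ∈ W) → ∀ l i j, P l i j ∈ W) →
            ∀ (e : ℕ) (σ : Fin e → Fin k × Fin 2 × Fin 2), e ≤ Fintype.card (Fin k × Fin 2 × Fin 2) → LIb K δ (fun i => z (σ i)) →
              (∀ x, x ∉ Set.range σ → ¬ LIb K δ (Fin.cons (z x) (fun i => z (σ i)) : Fin (e + 1) → ℂ)) → 3 * (k - 1) ≤ e by
    obtain ⟨E, hE⟩ := key
    refine ⟨E, fun H T hHT g hg hgH K _ hK P hP z hz => ?_⟩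
    obtain ⟨e, σ, hσ, hek, hLI, hmax⟩ := exists_max K δ z
    have h1 := hE H T hHT g hg hgH K hK P hP z hz e σ hek hLI hmax
    refine ⟨fun i => σ (Fin.castLE h1 i), hσ.comp (Fin.castLE_injective h1), ?_⟩
    exact hLI.comp (Fin.castLE h1) (Fin.castLE_injective h1)
  by_cases hk : k ≤ 1
  · refine ⟨0, ?_⟩
    intro H T _ g _ _ K _ _ P _ z _ e σ _ _ _
    have : k - 1 = 0 := by omega
    rw [this]
    omega
  push Not at hk
  obtain ⟨n, w0, hw0, -, hdet⟩ := det_mono L hD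
  obtain ⟨c₁, hc₁⟩ := gr_max D 0 δ (k * (2 * 2))
  obtain ⟨c₃, hc₃⟩ := gr_algs ((0 + 1) * (1 + 2) ^ ((3 * k - 4) + k + 3) * c₁) ((3 * k - 4) + k + 3) 1 11 k
  obtain ⟨N, hN'⟩ := gr_li' c₃ ((3 * k - 4) + k + 3) (k * 4) (L.m 0 + L.m 1 + 4) (by omega)
  obtain ⟨E, hE⟩ := hR' N k
  obtain ⟨r, hr⟩ := exists_nat_ge (1 / u0)
  refine ⟨E + (r + 1), ?_⟩
  intro H T hHT g hg hgH K _ hK P hP z hz e σ hek hLI hmax
  by_contra hlt
  push Not at hlt
  have h1 : (H + 2) ^ E ≤ T := (Nat.pow_le_pow_right (by omega) (by omega)).trans hHT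
  have hHt' : H + r < T := by
    have h1 : (H + 2) ^ (r + 1) ≤ T := (Nat.pow_le_pow_right (by omega) (by omega)).trans hHT
    have h2 : r < 2 ^ r := Nat.lt_two_pow_self
    have h3 : 2 ^ r ≤ (H + 2) ^ r := Nat.pow_le_pow_left (by omega) _
    have h4 : (r + 1) * (H + 2) ≤ (H + 2) ^ (r + 1) := by
      rw [pow_succ]
      exact Nat.mul_le_mul_right _ (by omega)
    have h5 : H + r < (r + 1) * (H + 2) := by nlinarith
    omega
  set j0 : Fin k := ⟨0, by omega⟩ with hj0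
  -- the points
  have htpos : ∀ l, r < T - g l := fun l => by
    have := hgH l
    omega
  have htR : ∀ l, 1 / u0 < ((T - g l : ℕ) : ℝ) := fun l => hr.trans_lt (by exact_mod_cast htpos l)
  have ht0 : ∀ l, (0 : ℝ) < ((T - g l : ℕ) : ℝ) := fun l => lt_trans (by positivity) (htR l)
  have hu_ne : ∀ l, (1 / ((T - g l : ℕ) : ℂ)) ≠ 0 := fun l => one_div_ne_zero (by exact_mod_cast (ht0 l).ne')
  have hu_n : ∀ l, ‖(1 / ((T - g l : ℕ) : ℂ))‖ < 1 / R := by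
    intro l
    rw [norm_div, norm_one, Complex.norm_natCast, div_lt_iff₀ (ht0 l)]
    have h2 := htR l
    rw [div_lt_iff₀ hu0] at h2
    have h3 : u0 * ((T - g l : ℕ) : ℝ) ≤ 1 / R * ((T - g l : ℕ) : ℝ) := mul_le_mul_of_nonneg_right hu0R (ht0 l).le
    linarith
  -- the spaces
  have h10 : (1 : ℂ) ∈ (1 : Submodule K ℂ) := Submodule.one_le.1 le_rfl
  have hcard : Fintype.card (Fin k × Fin 2 × Fin 2) = k * (2 * 2) := by
    rw [Fintype.card_prod, Fintype.card_prod, Fintype.card_fin, Fintype.card_fin]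
  obtain ⟨W₁, hW₁, hzW₁, hG₁⟩ := hc₁ K 1 h10 (gr_one hK) (Fin k × Fin 2 × Fin 2) hcard z e σ hek hLI hmax
  have hG₁' := hG₁.mono_exp (e' := 3 * k - 4) (by omega)
  have hP₁ := hz W₁ hzW₁
  obtain ⟨W₂, hW₂, hℓ, hG₂⟩ := gr_fam c₁ k (3 * k - 4) W₁ (hW₁ h10) hG₁' (fun l => ((Real.log (1 - g l / T) : ℝ) : ℂ))
  have h12' : (1 : ℂ) ∈ W₂ := hW₂ (hW₁ h10)
  have hdy := det_yv L hR hY hdet (hu_ne j0) (hu_n j0)
  have hq : (w0 * (1 / ((T - g j0 : ℕ) : ℚ)) ^ n) ≠ 0 := by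
    refine mul_ne_zero hw0 (pow_ne_zero _ (one_div_ne_zero ?_))
    have h2 : T - g j0 ≠ 0 := by
      have := htpos j0
      omega
    exact_mod_cast h2
  obtain ⟨W₃, hW₃, hy, hG₃⟩ := gr_four h12' hG₂ (fun i j => yv L i j (1 / ((T - g j0 : ℕ) : ℂ))) _ hq (by
    rw [hdy]
    push_cast
    rfl)
  have h13 : (1 : ℂ) ∈ W₃ := hW₃ h12'
  -- logarithms
  have hlog : ∀ l, Complex.log (1 / ((T - g l : ℕ) : ℂ)) = ((-Real.log ((T - g l : ℕ) : ℝ) : ℝ) : ℂ) := by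
    intro l
    have h2 : (1 / ((T - g l : ℕ) : ℂ)) = ((1 / ((T - g l : ℕ) : ℝ) : ℝ) : ℂ) := by
      push_cast
      rfl
    rw [h2, ← Complex.ofReal_log (one_div_pos.2 (ht0 l)).le, one_div, Real.log_inv]
  have hT0 : (0 : ℝ) < T := by
    have : 0 < T := by omega
    exact_mod_cast this
  have hlogT : ∀ l, Real.log ((T - g l : ℕ) : ℝ) = Real.log T + Real.log (1 - g l / T) := by
    intro l
    have h2 : ((T - g l : ℕ) : ℝ) = (T : ℝ) - g l := by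
      rw [Nat.cast_sub (by
        have := hgH l
        omega)]
    have h3 : ((T : ℝ) - g l) = T * (1 - g l / T) := by field_simp
    have h4 : (0 : ℝ) < 1 - g l / T := by
      have h5 := ht0 l
      rw [h2, h3] at h5
      exact pos_of_mul_pos_right h5 hT0.le
    rw [h2, h3, Real.log_mul hT0.ne' h4.ne']
  set Δ : Fin k → ℂ := fun l => Complex.log (1 / ((T - g l : ℕ) : ℂ)) - Complex.log (1 / ((T - g j0 : ℕ) : ℂ)) with hΔ
  have hΔl : ∀ l, Δ l = ((Real.log (1 - g j0 / T) : ℝ) : ℂ) - ((Real.log (1 - g l / T) : ℝ) : ℂ) := by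
    intro l
    rw [hΔ]
    dsimp only
    rw [hlog, hlog, hlogT, hlogT]
    push_cast
    ring
  obtain ⟨W₄, hW₄, hρ, hG₄⟩ := hc₃ K W₃ h13 hG₃ (fun l => Complex.exp (Δ l / 12)) (by
    intro l
    refine ⟨1, fun j => if j = 0 then (((((T - g j0 : ℕ) : ℚ) / ((T - g l : ℕ) : ℚ) : ℚ)) : ℂ) else 0, one_ne_zero, one_mem_pow h13 1, ?_, ?_⟩
    · intro j
      dsimp only
      split_ifs
      · have h2 : ((((((T - g j0 : ℕ) : ℚ) / ((T - g l : ℕ) : ℚ) : ℚ)) : ℂ)) = (algebraMap ℚ K (((T - g j0 : ℕ) : ℚ) / ((T - g l : ℕ) : ℚ))) • (1 : ℂ) := by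
          rw [Algebra.smul_def, mul_one]
          rfl
        rw [h2]
        exact Submodule.smul_mem _ _ (one_mem_pow h13 1)
      · exact Submodule.zero_mem _
    · rw [Finset.sum_eq_single 0]
      · dsimp only
        rw [if_pos rfl, pow_zero, mul_one, one_mul, ← Complex.exp_nat_mul]
        have h2 : (((11 + 1 : ℕ) : ℂ)) * (Δ l / 12) = Δ l := by
          push_cast
          ring
        rw [h2, hΔ]
        dsimp only
        rw [Complex.exp_sub, Complex.exp_log (hu_ne l), Complex.exp_log (hu_ne j0)]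
        push_cast
        have h3 : ((T - g l : ℕ) : ℂ) ≠ 0 := by exact_mod_cast (ht0 l).ne'
        have h4 : ((T - g j0 : ℕ) : ℂ) ≠ 0 := by exact_mod_cast (ht0 j0).ne'
        field_simp
      · intro j _ hj
        dsimp only
        rw [if_neg hj, zero_mul]
      · intro h2
        exact absurd (Finset.mem_range.2 (Nat.succ_pos _)) h2)
  -- the numbers in the space
  have h14 : (1 : ℂ) ∈ W₄ := hW₄ h13
  have mP : ∀ l i j, P l i j ∈ W₄ ^ 1 := fun l i j => by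
    rw [pow_one]
    exact hW₄ (hW₃ (hW₂ (hP₁ l i j)))
  have mℓ : ∀ l, ((Real.log (1 - g l / T) : ℝ) : ℂ) ∈ W₄ ^ 1 := fun l => by
    rw [pow_one]
    exact hW₄ (hW₃ (hℓ l))
  have my : ∀ i j, yv L i j (1 / ((T - g j0 : ℕ) : ℂ)) ∈ W₄ ^ 1 := fun i j => by
    rw [pow_one]
    exact hW₄ (hy i j)
  have mρ : ∀ l, Complex.exp (Δ l / 12) ∈ W₄ ^ 1 := fun l => by
    rw [pow_one]
    exact hρ l
  have mQ : ∀ (q : ℚ) (m : ℕ) {x : ℂ}, x ∈ W₄ ^ m → (q : ℂ) * x ∈ W₄ ^ m := by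
    intro q m x hx
    have h2 : (q : ℂ) * x = (algebraMap ℚ K q) • x := by
      rw [Algebra.smul_def]
      rfl
    rw [h2]
    exact Submodule.smul_mem _ _ hx
  have mneg : ∀ (m : ℕ) {x : ℂ}, x ∈ W₄ ^ m → -x ∈ W₄ ^ m := fun m x hx => Submodule.neg_mem _ hx
  have mdet : P j0 0 0 * P j0 1 1 - P j0 0 1 * P j0 1 0 ∈ W₄ ^ 2 :=
    Submodule.sub_mem _ (pow_mem_add (mP _ _ _) (mP _ _ _)) (pow_mem_add (mP _ _ _) (mP _ _ _))
  have hdetP : P j0 0 0 * P j0 1 1 - P j0 0 1 * P j0 1 0 ≠ 0 := by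
    have h2 := det_Yan L hR hY hw0 hdet (hu_ne j0) (hu_n j0)
    have h3 : P j0 0 0 * P j0 1 1 - P j0 0 1 * P j0 1 0 = (C 0 0 * C 1 1 - C 0 1 * C 1 0) *
        (Yan L 0 0 (1 / ((T - g j0 : ℕ) : ℂ)) * Yan L 1 1 (1 / ((T - g j0 : ℕ) : ℂ)) -
          Yan L 0 1 (1 / ((T - g j0 : ℕ) : ℂ)) * Yan L 1 0 (1 / ((T - g j0 : ℕ) : ℂ))) := by
      simp only [hP, Fin.sum_univ_two]
      ring
    rw [h3]
    exact mul_ne_zero hC h2
  have mG : ∀ l m j, Gm (P j0) (P l) m j ∈ W₄ ^ 2 := by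
    intro l m j
    have h2 : ∀ m m' : Fin 2, (![![P j0 1 1, -P j0 0 1], ![-P j0 1 0, P j0 0 0]] m m' : ℂ) ∈ W₄ ^ 1 := by
      intro m m'
      fin_cases m <;> fin_cases m'
      · exact mP _ _ _
      · exact mneg 1 (mP _ _ _)
      · exact mneg 1 (mP _ _ _)
      · exact mP _ _ _
    exact Submodule.add_mem _ (pow_mem_add (h2 m 0) (mP l 0 j)) (pow_mem_add (h2 m 1) (mP l 1 j))
  have mZ : ∀ l i j, Zm L (1 / ((T - g j0 : ℕ) : ℂ)) (P j0) (P l) i j ∈ W₄ ^ 3 := by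
    intro l i j
    refine Submodule.sum_mem _ fun m _ => ?_
    exact pow_mem_add (my i m) (mG l m j)
  have mΔ : ∀ l, Δ l / 12 ∈ W₄ ^ 1 := by
    intro l
    rw [hΔl, div_eq_mul_inv, mul_comm]
    have h2 : ((12 : ℂ)⁻¹) = (((12 : ℚ)⁻¹ : ℚ) : ℂ) := by push_cast; rfl
    rw [h2]
    exact mQ _ _ (Submodule.sub_mem _ (mℓ j0) (mℓ l))
  have mY : ∀ l i j, (P j0 0 0 * P j0 1 1 - P j0 0 1 * P j0 1 0) * yv L i j (1 / ((T - g l : ℕ) : ℂ)) ∈ W₄ ^ (L.m 0 + L.m 1 + 4) := by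
    intro l i j
    have h2 := rel_Y L (P := P l) (P' := P j0) (C := C) (hP l) (hP j0) i j
    rw [h2]
    have h3 : Complex.exp (Δ l / 12) ^ (L.m i) ∈ W₄ ^ (L.m i) := by
      have := mem_pow_pow (mρ l) (L.m i)
      rwa [one_mul] at this
    have h4 : Zm L (1 / ((T - g j0 : ℕ) : ℂ)) (P j0) (P l) i j - Δ l / 12 * ∑ m, ((L.N i m : ℚ) : ℂ) *
        Zm L (1 / ((T - g j0 : ℕ) : ℂ)) (P j0) (P l) m j ∈ W₄ ^ 4 := by
      refine Submodule.sub_mem _ (pow_mem_mono h14 (by norm_num) (mZ l i j)) ?_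
      exact pow_mem_add (a := 1) (b := 3) (mΔ l) (Submodule.sum_mem _ fun m _ => mQ _ _ (mZ l m j))
    refine pow_mem_mono h14 ?_ (pow_mem_add h3 h4)
    fin_cases i
    · show L.m 0 + 4 ≤ _
      omega
    · show L.m 1 + 4 ≤ _
      omega
  refine hN' K W₄ h14 hG₄ (Fin k × Fin 4) (by rw [Fintype.card_prod, Fintype.card_fin, Fintype.card_fin])
    (fun i => X4 L T (g i.1) i.2) _ hdetP (pow_mem_mono h14 (by omega) mdet) ?_ (hE H T h1 g hg hgH)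
  rintro ⟨l, i⟩
  fin_cases i
  · exact mY l 0 0
  · exact mY l 1 0
  · exact mY l 0 1
  · refine pow_mem_mono h14 ?_ (pow_mem_add mdet (mℓ l))
    omega

end Pool.Agent.Y124.TD
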