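import Pool.Agent.Y124.TD.Lm
import Pool.Agent.Y124.GE.One

/-!
# Independence of the values at several shifts
-/

set_option autoImplicit false

open PowerSeries Pool.Agent.Y113 Pool.Agent.Y120.GF Pool.Agent.Y120.GH

namespace Pool.Agent.Y124.TD

open Pool.Agent.Y124 Pool.Agent.Y124.GE

/-- independence of the values -/
theorem base_li {σ : Type} [Fintype σ] {F : ℕ → σ → ℚ⟦X⟧} {Tg : ℕ → Polynomial ℤ} {q₀ E₀ : ℕ} {b₀ : σ} (R : ℕ)
    (hone : ∀ g, F g b₀ = 1) (hsy : ∀ g : ℕ, GSys q₀ (((g : ℝ) + 2) ^ E₀) (Tg g) (F g))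
    (hnz : ∀ g t : ℕ, g + R < t → Polynomial.aeval (1 / (t : ℝ)) (Tg g) ≠ 0) (D : ℕ) : ∃ E : ℕ, ∀ (H t : ℕ), (H + 2) ^ E ≤ t →
    ∀ g : Fin D → ℕ, (∀ l, g l ≤ H) → LinearIndependent (Polynomial ℚ) (fun b : Fin D → σ => ∏ l, F (g l) (b l)) →
      LinearIndependent ℚ (fun b : Fin D → σ => ∏ l, ev (t : ℝ) (F (g l) (b l))) := by
  classical
  obtain ⟨q, E₁, hE₁⟩ := gsys_multi F Tg q₀ E₀ hsy D
  obtain ⟨E₂, hE₂⟩ := t_G (Fintype.card (Fin D → σ)) q
  refine ⟨(max E₁ 1 + 1) * max E₂ 1 + (E₀ + 2) + (R + 1), ?_⟩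
  intro H t hHt g hgH hli
  have hH1 : (1 : ℝ) ≤ (H : ℝ) + 2 := by
    have : (0 : ℝ) ≤ H := by positivity
    linarith
  have htR : (((H : ℝ) + 2)) ^ ((max E₁ 1 + 1) * max E₂ 1 + (E₀ + 2) + (R + 1)) ≤ (t : ℝ) := by exact_mod_cast hHt
  have hb1 : ((H : ℝ) + 2) ^ ((max E₁ 1 + 1) * max E₂ 1) ≤ (t : ℝ) :=
    (pow_le_pow_right₀ hH1 (by omega)).trans htR
  have hb2 : ((H : ℝ) + 2) ^ (E₀ + 2) ≤ (t : ℝ) := (pow_le_pow_right₀ hH1 (by omega)).trans htR
  have hHt' : H + R < t := by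
    have h1 : (H + 2) ^ (R + 1) ≤ t := (Nat.pow_le_pow_right (by omega) (by omega)).trans hHt
    have h2 : R < 2 ^ R := Nat.lt_two_pow_self
    have h3 : 2 ^ R ≤ (H + 2) ^ R := Nat.pow_le_pow_left (by omega) _
    have h4 : (R + 1) * (H + 2) ≤ (H + 2) ^ (R + 1) := by
      rw [pow_succ]
      exact Nat.mul_le_mul_right _ (by omega)
    have h5 : H + R < (R + 1) * (H + 2) := by nlinarith
    omega
  have ht0 : (0 : ℝ) < t := by
    have : 0 < t := by omega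
    exact_mod_cast this
  have hsys := (hE₁ H g hgH).mono le_rfl (pow_le_pow_right₀ hH1 (le_max_left E₁ 1))
  have hC : (2 * ((H : ℝ) + 2) ^ (max E₁ 1)) ^ E₂ ≤ (t : ℝ) := by
    have h1 : (2 * ((H : ℝ) + 2) ^ (max E₁ 1)) ^ E₂ ≤ (2 * ((H : ℝ) + 2) ^ (max E₁ 1)) ^ (max E₂ 1) := by
      refine pow_le_pow_right₀ ?_ (le_max_left _ _)
      have : (1 : ℝ) ≤ ((H : ℝ) + 2) ^ (max E₁ 1) := one_le_pow₀ hH1
      linarith
    exact h1.trans ((pow_base H _ _).trans hb1)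
  have hne : Polynomial.aeval (1 / (t : ℝ)) (∏ l, Tg (g l)) ≠ 0 := by
    rw [map_prod, Finset.prod_ne_zero_iff]
    intro l _
    refine hnz _ _ ?_
    have := hgH l
    omega
  have hLI := hE₂ (Fin D → σ) (((H : ℝ) + 2) ^ (max E₁ 1)) (∏ l, Tg (g l)) (fun b => ∏ l, F (g l) (b l)) (fun _ => b₀) t
    le_rfl hsys (Finset.prod_eq_one fun l _ => hone _) hli hC hne
  -- multiplicativity
  have hcv : ∀ l b, Pool.Agent.Y113.Cv (t : ℝ) (F (g l) b) := by
    intro l b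
    have h1 := (hsy (g l)).size b
    set B : ℝ := ((g l : ℝ) + 2) ^ E₀ with hB
    have hB0 : 0 ≤ B := by positivity
    refine Pool.Agent.Y113.Cv.of_bound (A := B) (B := B) ht0 hB0 ?_ fun m => ?_
    · have h2 : B ≤ ((H : ℝ) + 2) ^ E₀ := by
        refine pow_le_pow_left₀ (by positivity) ?_ _
        have : ((g l : ℕ) : ℝ) ≤ H := by exact_mod_cast hgH l
        linarith
      have h3 : ((H : ℝ) + 2) ^ E₀ < ((H : ℝ) + 2) ^ (E₀ + 2) := pow_lt_pow_right₀ (by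
        have : (0 : ℝ) ≤ H := by positivity
        linarith) (by omega)
      linarith
    · exact (h1 m).trans (le_of_eq (pow_succ' _ _))
  have hev : ∀ b : Fin D → σ, ev (t : ℝ) (∏ l, F (g l) (b l)) = ∏ l, ev (t : ℝ) (F (g l) (b l)) := by
    intro b
    exact Pool.Agent.Y113.Cv.ev_prod ht0 Finset.univ (fun l => F (g l) (b l)) fun l _ => hcv l _
  simp only [hev] at hLI
  exact hLI

/-- maximal linearly independent subfamilies containing a given one -/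
theorem max_li_ext {σ : Type} [Fintype σ] (y : σ → ℚ⟦X⟧) (S₀ : Finset σ)
    (hS₀ : ∀ g : σ → Polynomial ℚ, ∑ i ∈ S₀, (g i : ℚ⟦X⟧) * y i = 0 → ∀ i ∈ S₀, g i = 0) :
    ∃ B : Finset σ, S₀ ⊆ B ∧ LinearIndependent (Polynomial ℚ) (fun b : B => y b) ∧
      ∃ (a : Polynomial ℤ) (M : σ → B → Polynomial ℤ), a ≠ 0 ∧ ∀ b, ps a * y b = ∑ β, ps (M b β) * y β := by
  classical
  let P : Finset σ → Prop := fun B => S₀ ⊆ B ∧ ∀ g : σ → Polynomial ℚ, ∑ i ∈ B, (g i : ℚ⟦X⟧) * y i = 0 → ∀ i ∈ B, g i = 0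
  have hP0 : P S₀ := ⟨Finset.Subset.refl _, hS₀⟩
  obtain ⟨B, hB, hmax⟩ := Finset.exists_max_image (Finset.univ.filter P) Finset.card
    ⟨S₀, Finset.mem_filter.2 ⟨Finset.mem_univ _, hP0⟩⟩
  rw [Finset.mem_filter] at hB
  obtain ⟨-, hb₀, hLI⟩ := hB
  -- expressing the others
  have hex : ∀ b, ∃ (a : Polynomial ℚ) (m : σ → Polynomial ℚ), a ≠ 0 ∧ (a : ℚ⟦X⟧) * y b = ∑ i ∈ B, (m i : ℚ⟦X⟧) * y i := by
    intro b
    by_cases hb : b ∈ B
    · refine ⟨1, fun i => if i = b then 1 else 0, one_ne_zero, ?_⟩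
      rw [Finset.sum_eq_single b]
      · beta_reduce
        rw [if_pos rfl]
      · intro i _ hne
        beta_reduce
        rw [if_neg hne]
        simp
      · intro h
        exact absurd hb h
    · have h1 : ¬ P (insert b B) := by
        intro h
        have h2 := hmax (insert b B) (Finset.mem_filter.2 ⟨Finset.mem_univ _, h⟩)
        rw [Finset.card_insert_of_notMem hb] at h2
        omega
      have h2 : ∃ g : σ → Polynomial ℚ, ∑ i ∈ insert b B, (g i : ℚ⟦X⟧) * y i = 0 ∧ ∃ i ∈ insert b B, g i ≠ 0 := by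
        by_contra hno
        push Not at hno
        exact h1 ⟨hb₀.trans (Finset.subset_insert _ _), hno⟩
      obtain ⟨g, hg, i, hi, hgi⟩ := h2
      rw [Finset.sum_insert hb] at hg
      refine ⟨g b, fun i => - g i, ?_, ?_⟩
      · intro hgb
        rw [hgb] at hg
        simp only [Polynomial.coe_zero, zero_mul, zero_add] at hg
        rcases Finset.mem_insert.1 hi with rfl | h3
        · exact hgi hgb
        · exact hgi (hLI g hg i h3)
      · have h3 : ∑ i ∈ B, ((- g i : Polynomial ℚ) : ℚ⟦X⟧) * y i = - ∑ i ∈ B, (g i : ℚ⟦X⟧) * y i := by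
          rw [← Finset.sum_neg_distrib]
          refine Finset.sum_congr rfl fun i _ => ?_
          rw [Polynomial.coe_neg]
          ring
        rw [h3]
        linear_combination hg
  choose a m ha hm using hex
  set A : Polynomial ℚ := ∏ b, a b with hA
  have hA0 : A ≠ 0 := Finset.prod_ne_zero_iff.2 fun b _ => ha b
  let M : σ → σ → Polynomial ℚ := fun b i => (∏ b' ∈ Finset.univ.erase b, a b') * m b i
  have hM : ∀ b, (A : ℚ⟦X⟧) * y b = ∑ i ∈ B, (M b i : ℚ⟦X⟧) * y i := by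
    intro b
    rw [hA, ← Finset.mul_prod_erase _ _ (Finset.mem_univ b), Polynomial.coe_mul]
    have h1 : (a b : ℚ⟦X⟧) * ((∏ b' ∈ Finset.univ.erase b, a b' : Polynomial ℚ) : ℚ⟦X⟧) * y b =
        ((∏ b' ∈ Finset.univ.erase b, a b' : Polynomial ℚ) : ℚ⟦X⟧) * ((a b : ℚ⟦X⟧) * y b) := by ring
    rw [h1, hm b, Finset.mul_sum]
    refine Finset.sum_congr rfl fun i _ => ?_
    show _ = (((∏ b' ∈ Finset.univ.erase b, a b') * m b i : Polynomial ℚ) : ℚ⟦X⟧) * y i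
    rw [Polynomial.coe_mul]
    ring
  obtain ⟨D, Q, hD, hQ⟩ := clear (I := Option (σ × σ)) fun o => o.elim A fun p => M p.1 p.2
  refine ⟨B, hb₀, ?_, Q none, fun b β => Q (some (b, β)), ?_, fun b => ?_⟩
  · rw [Fintype.linearIndependent_iff]
    intro g hg
    let g' : σ → Polynomial ℚ := fun i => if h : i ∈ B then g ⟨i, h⟩ else 0
    have h1 := hLI g' (by
      rw [← Finset.sum_coe_sort]
      refine Eq.trans ?_ hg
      refine Finset.sum_congr rfl fun i _ => ?_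
      show ((if h : (i : σ) ∈ B then g ⟨i, h⟩ else 0 : Polynomial ℚ) : ℚ⟦X⟧) * y i = _
      rw [dif_pos i.2, psmul])
    intro i
    have h2 := h1 i i.2
    have h3 : g' i = g i := by
      show (if h : (i : σ) ∈ B then g ⟨i, h⟩ else 0) = _
      rw [dif_pos i.2]
    rw [← h3, h2]
  · intro h
    have h1 := hQ none
    rw [h, Polynomial.map_zero] at h1
    have h2 := (mul_eq_zero.1 h1.symm).resolve_left (by
      refine Polynomial.C_ne_zero.2 ?_
      exact_mod_cast hD)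
    exact hA0 h2
  · have h1 : ps (Q none) = (D : ℚ⟦X⟧) * (A : ℚ⟦X⟧) := by
      unfold ps
      rw [hQ none, Polynomial.coe_mul, Polynomial.coe_C]
      simp
    have h2 : ∀ i, ps (Q (some (b, i))) = (D : ℚ⟦X⟧) * (M b i : ℚ⟦X⟧) := by
      intro i
      unfold ps
      rw [hQ (some (b, i)), Polynomial.coe_mul, Polynomial.coe_C]
      simp
    rw [h1, mul_assoc, hM b, Finset.sum_coe_sort B fun i => ps (Q (some (b, i))) * y i, Finset.mul_sum]
    refine Finset.sum_congr rfl fun i _ => ?_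
    rw [h2 i]
    ring

/-- values at the shifts -/
theorem ev_Fg {κ : Type} [Fintype κ] {n : ℕ} {y : κ → ℚ⟦X⟧} {C : ℝ} (hC : 1 ≤ C)
    (hy : ∀ i m, |((coeff m (y i) : ℚ) : ℝ)| ≤ C ^ (m + 1)) {t g : ℕ} (h : (g : ℝ) + C < t) (b : κ × Fin (n + 1)) :
    ((ev t (Fg (n + 1) y g b) : ℝ) : ℂ) =
      ((ev ((t - g : ℕ) : ℝ) (y b.1) : ℝ) : ℂ) *
        (1 / ((b.2 : ℕ).factorial : ℂ) * (((Real.log (1 - g / t) : ℝ) : ℂ)) ^ (b.2 : ℕ)) := by
  have hg0 : (0 : ℝ) ≤ g := by positivity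
  have ht0 : (0 : ℝ) < t := by linarith
  have htg : (g : ℝ) < t := by linarith
  have hcast : ((t - g : ℕ) : ℝ) = (t : ℝ) - g := by
    rw [Nat.cast_sub (by exact_mod_cast htg.le)]
  have hval : ∀ i, ev t (sf g (y i)) = ev ((t - g : ℕ) : ℝ) (y i) := by
    intro i
    have h1 := ou_shift (by linarith) (hy i) g (t := ((t : ℝ) : ℂ)) (by
      rw [Complex.norm_real, Real.norm_of_nonneg ht0.le]
      exact h)
    have h2 : (((t : ℝ) : ℂ)) - (g : ℂ) = ((((t - g : ℕ) : ℝ)) : ℂ) := by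
      rw [hcast]
      push_cast
      ring
    rw [h2, ou_ev, ou_ev] at h1
    exact_mod_cast h1
  have hsub : ∀ i, Pool.Agent.Y113.Cv (t : ℝ) (sf g (y i)) := fun i => Pool.Agent.Y120.GH.cx_sf_cv (by linarith) (hy i) g h
  have h1 : Pool.Agent.Y113.Cv (t : ℝ) (yQ g b.2) := by
    rw [yQ]
    exact (Pool.Agent.Y113.Cv.C _).mul ht0 ((lg_cv (by linarith)).pow ht0 _)
  rw [Fg, Pool.Agent.Y113.Cv.ev_mul ht0 (hsub _) h1, ev_yQ htg, hval]
  push_cast
  ring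

end Pool.Agent.Y124.TD
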