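import Pool.Agent.Y124.TD.Bs

/-!
# Independence of the values of the monomials at several shifts
-/

set_option autoImplicit false

open PowerSeries Pool.Agent.Y113 Pool.Agent.Y120.GF Pool.Agent.Y120.GH

namespace Pool.Agent.Y124.TD

open Pool.Agent.Y124 Pool.Agent.Y124.GE

section
variable {ι : Type} [Fintype ι] [DecidableEq ι] {e : ℕ} (he : e ≠ 0)

include he in
theorem base_gen {q : ℕ} {C : ℝ} {T : Polynomial ℤ} {y : ι → ℚ⟦X⟧} (hT : T ≠ 0) (hG : GSys q C T y) {Tc : Polynomial ℂ}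
    (hTc : Tc ≠ 0) {A : ι → ι → Polynomial ℂ}
    (hode : ∀ i, (Tc : PowerSeries ℂ) * PowerSeries.derivative ℂ (cx (y i)) = ∑ j, (A i j : PowerSeries ℂ) * cx (y j))
    (hqu : ∀ τ : ℝ, 0 < τ → (∀ i, cx (y i) ∈ Cw (τ ^ e)) → QU he τ Tc A) :
    ∃ R : ℕ, ∀ (δ n k : ℕ) (S₀ : Finset (Fin δ → Option ι)), (fun _ => none) ∈ S₀ →
      (∀ g : (Fin δ → Option ι) → Polynomial ℚ, ∑ i ∈ S₀, (g i : ℚ⟦X⟧) * Yb y i = 0 → ∀ i ∈ S₀, g i = 0) →
      ∃ E : ℕ, ∀ H t : ℕ, (H + 2) ^ E ≤ t → ∀ g : Fin k → ℕ, SepR R g → (∀ l, g l ≤ H) →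
        LinearIndependent ℚ (fun s : Fin k → S₀ × Fin (n + 1) => ∏ l,
          (((ev ((t - g l : ℕ) : ℝ) (Yb y ((s l).1 : Fin δ → Option ι)) : ℝ) : ℂ) * (((Real.log (1 - g l / t) : ℝ) : ℂ)) ^ ((s l).2 : ℕ))) := by
  classical
  have hC1 := hG.one_le
  have hC0 : 0 < C := by linarith
  have hCe : C ≤ C ^ e := le_self_pow₀ hC1 he
  have hy1 : ∀ i, cx (y i) ∈ Cw (C ^ e) := fun i => Cw_mono hCe (cx_mem (by linarith) (hG.size i))
  have hmem1 : ∀ (δ : ℕ) (b : Fin δ → Option ι), cx (∏ j, (b j).elim 1 y) ∈ Cw (C ^ e) := by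
    intro δ b
    rw [map_prod]
    refine (Cw _).prod_mem fun j _ => ?_
    rcases b j with _ | i
    · show cx 1 ∈ _
      rw [map_one]
      exact (Cw _).one_mem
    · exact hy1 i
  have hlt : C ^ e < (C + 1) ^ e := pow_lt_pow_left₀ (by linarith) hC0.le he
  obtain ⟨R, hR⟩ := exists_nat_gt (C ^ e + (C + 1) ^ e)
  refine ⟨R, ?_⟩
  intro δ n k S₀ hnone hS₀
  have hG1 := gsys_opt hG
  obtain ⟨C', hG2⟩ := gsys_tens hG1 δ
  -- the maximal independent subfamily
  obtain ⟨B, hSB, hLI, a, M, ha, hM⟩ := max_li_ext (fun b : Fin δ → Option ι => ∏ j, (b j).elim 1 y) S₀ hS₀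
  obtain ⟨q', C'', hG3⟩ := gsys_sub hG2 (fun b : B => ∏ j, ((b : Fin δ → Option ι) j).elim 1 y) (fun b => (b : Fin δ → Option ι))
    (fun _ => rfl) a M hM
  have hC'' := hG3.one_le
  set w : B → ℚ⟦X⟧ := fun b => ∏ j, ((b : Fin δ → Option ι) j).elim 1 y with hw
  have hQ := hqu C hC0 hy1
  have hQ2 := qu_tens he δ (qu_one he hQ)
  have hode1 : ∀ o : Option ι, (Tc : PowerSeries ℂ) * PowerSeries.derivative ℂ (cx (o.elim 1 y)) =
      0 * cx (o.elim 1 y) + ∑ l : Option ι, ((A1 A o l : Polynomial ℂ) : PowerSeries ℂ) * cx (l.elim 1 y) := by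
    intro o
    rw [zero_mul, zero_add]
    rcases o with _ | i
    · show (Tc : PowerSeries ℂ) * PowerSeries.derivative ℂ (cx 1) = _
      rw [map_one, Derivation.map_one_eq_zero, mul_zero]
      symm
      refine Finset.sum_eq_zero fun l _ => ?_
      have : A1 A none l = 0 := by rcases l with _ | l <;> rfl
      rw [this]
      simp
    · rw [Fintype.sum_option]
      show (Tc : PowerSeries ℂ) * PowerSeries.derivative ℂ (cx (y i)) = ((0 : Polynomial ℂ) : PowerSeries ℂ) * _ +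
        ∑ l, (A i l : PowerSeries ℂ) * cx (y l)
      rw [hode i]
      simp
  have hode2 : ∀ b : Fin δ → Option ι, (Tc : PowerSeries ℂ) * PowerSeries.derivative ℂ (cx (∏ j, (b j).elim 1 y)) =
      ∑ b', (AT (A1 A) b b' : Polynomial ℂ) * cx (∏ j, (b' j).elim 1 y) := by
    intro b
    have h1 := tens_der (δ := δ) (PowerSeries.derivative ℂ : PowerSeries ℂ → PowerSeries ℂ) (Derivation.map_one_eq_zero _)
      (fun a b => by rw [Derivation.leibniz]; simp only [smul_eq_mul]) (Tc : PowerSeries ℂ) 0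
      (fun i j => ((A1 A i j : Polynomial ℂ) : PowerSeries ℂ)) (fun _ o => cx (o.elim 1 y)) (fun _ o => hode1 o) b
    rw [map_prod, h1, mul_zero, zero_mul, zero_add]
    refine Finset.sum_congr rfl fun b' _ => ?_
    rw [map_prod]
    congr 1
    let f : Polynomial ℂ →+ PowerSeries ℂ := (Polynomial.coeToPowerSeries.ringHom (R := ℂ) : Polynomial ℂ →+* PowerSeries ℂ)
    exact (AT_map f (A1 A) b b').symm
  have hDd := disc_of_qu he hC0 (show (0 : ℝ) < C + 1 by linarith) (fun b : Fin δ → Option ι => cx (∏ j, (b j).elim 1 y)) (hmem1 δ) Tc hTc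
    (AT (A1 A)) hode2 hQ2 (B : Set (Fin δ → Option ι)) (fun G h0 => li_cx hLI G h0)
  -- shifts
  obtain ⟨E, hE⟩ := gsys_shift hG3
  obtain ⟨q₀, E₀, hsys⟩ := gsys_Fg hG3 n
  obtain ⟨c, hc⟩ := Tg_ne (mul_ne_zero ha hT) hG3.degT
  obtain ⟨C₃, hC₃⟩ := exists_nat_ge C''
  have hone : ∀ g, Fg (n + 1) w g (⟨fun _ => none, hSB hnone⟩, (0 : Fin (n + 1))) = 1 := by
    intro g
    show sf g (w ⟨fun _ => none, hSB hnone⟩) * yQ g ((0 : Fin (n + 1)) : ℕ) = 1
    have h0 : w ⟨fun _ => none, hSB hnone⟩ = 1 := by simp [hw]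
    rw [h0]
    have h1 : sf g 1 = 1 := by
      have := sf_nat g 1
      simpa using this
    rw [h1, one_mul]
    exact yQ_nil g
  obtain ⟨E₄, hE₄⟩ := base_li c hone hsys (fun g t h => hc g t h) k
  refine ⟨E₄ + (C₃ + 1), ?_⟩
  intro H t hHt g hg hgH
  have h1 : (H + 2) ^ E₄ ≤ t := (Nat.pow_le_pow_right (by omega) (by omega)).trans hHt
  have hHt' : H + C₃ < t := by
    have h1 : (H + 2) ^ (C₃ + 1) ≤ t := (Nat.pow_le_pow_right (by omega) (by omega)).trans hHt
    have h2 : C₃ < 2 ^ C₃ := Nat.lt_two_pow_self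
    have h3 : 2 ^ C₃ ≤ (H + 2) ^ C₃ := Nat.pow_le_pow_left (by omega) _
    have h4 : (C₃ + 1) * (H + 2) ≤ (H + 2) ^ (C₃ + 1) := by
      rw [pow_succ]
      exact Nat.mul_le_mul_right _ (by omega)
    have h5 : H + C₃ < (C₃ + 1) * (H + 2) := by nlinarith
    omega
  have hli := li_shift (y := w) (C := C'') (ρ := C ^ e) (ρ' := (C + 1) ^ e) (by positivity) hlt (by linarith) (fun b => hmem1 δ b) hDd hG3.size
      (fun g => ⟨((g : ℝ) + 2) ^ E, by positivity, (hE g).size⟩) hR (n + 1) k g (fun l => by exact_mod_cast hg.1 l)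
      (fun l l' hll => by
        rcases hg.2 l l' hll with h | h
        · have h1 : (g l : ℝ) + R ≤ g l' := by exact_mod_cast h
          rw [abs_sub_comm]
          exact (by linarith : (R : ℝ) ≤ g l' - g l).trans (le_abs_self _)
        · have h1 : (g l' : ℝ) + R ≤ g l := by exact_mod_cast h
          exact (by linarith : (R : ℝ) ≤ g l - g l').trans (le_abs_self _))
  have hbase := hE₄ H t h1 g hgH hli
  -- complex values
  have hbase2 : LinearIndependent ℚ (fun b : Fin k → B × Fin (n + 1) => ((∏ l, ev (t : ℝ) (Fg (n + 1) w (g l) (b l)) : ℝ) : ℂ)) := by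
    have h2 := hbase.map' ((Algebra.linearMap ℝ ℂ).restrictScalars ℚ) (by
      rw [LinearMap.ker_eq_bot]
      intro x y hxy
      exact Complex.ofReal_injective hxy)
    exact h2
  have hval : ∀ b : Fin k → B × Fin (n + 1), ((∏ l, ev (t : ℝ) (Fg (n + 1) w (g l) (b l)) : ℝ) : ℂ) =
      (∏ l, (1 / (((b l).2 : ℕ).factorial : ℚ)) : ℚ) • ∏ l, (((ev ((t - g l : ℕ) : ℝ) (w (b l).1) : ℝ) : ℂ) *
        (((Real.log (1 - g l / t) : ℝ) : ℂ)) ^ ((b l).2 : ℕ)) := by
    intro b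
    rw [Rat.smul_def]
    push_cast
    rw [← Finset.prod_mul_distrib]
    refine Finset.prod_congr rfl fun l _ => ?_
    have h3 : ((g l : ℕ) : ℝ) + C'' < t := by
      have h4 : g l + C₃ < t := by
        have := hgH l
        omega
      have h5 : ((g l : ℝ) + C₃) < t := by exact_mod_cast h4
      linarith
    have h6 := ev_Fg (n := n) hC'' hG3.size h3 (b l)
    rw [h6]
    push_cast
    ring
  have hbase3 : LinearIndependent ℚ (fun b : Fin k → B × Fin (n + 1) => ∏ l, (((ev ((t - g l : ℕ) : ℝ) (w (b l).1) : ℝ) : ℂ) *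
        (((Real.log (1 - g l / t) : ℝ) : ℂ)) ^ ((b l).2 : ℕ))) := by
    have hu : ∀ b : Fin k → B × Fin (n + 1), IsUnit (∏ l, (1 / (((b l).2 : ℕ).factorial : ℚ)) : ℚ) := by
      intro b
      rw [isUnit_iff_ne_zero, Finset.prod_ne_zero_iff]
      intro l _
      exact one_div_ne_zero (by exact_mod_cast Nat.factorial_ne_zero _)
    choose u hu using hu
    rw [← LinearIndependent.units_smul_iff (w := u)]
    convert hbase2 using 1
    funext b
    rw [hval b, ← hu b]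
    rfl
  -- restriction
  let φ : (Fin k → S₀ × Fin (n + 1)) → (Fin k → B × Fin (n + 1)) := fun s l => (⟨(s l).1, hSB (s l).1.2⟩, (s l).2)
  have hφ : Function.Injective φ := by
    intro s s' h
    funext l
    have h1 := congrFun h l
    have h2 := congrArg (fun p : B × Fin (n + 1) => (p.1 : Fin δ → Option ι)) h1
    have h3 := congrArg (fun p : B × Fin (n + 1) => p.2) h1
    refine Prod.ext (Subtype.ext ?_) h3
    exact h2
  exact hbase3.comp φ hφ

end

end Pool.Agent.Y124.TD
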