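import Pool.Agent.Y124.TD.Bs2

/-!
# Independence of the monomials in the local solutions at several shifts
-/

set_option autoImplicit false

open PowerSeries Pool.Agent.Y113 Pool.Agent.Y120.GF Pool.Agent.Y120.GH

namespace Pool.Agent.Y124.TD

open Pool.Agent.Y124 Pool.Agent.Y124.GE

variable {a b : Polynomial ℚ}

/-- the indices of the three entries -/
def ix (p : Fin 3) : Fin 2 × Fin 2 := ![(0, 0), (1, 0), (0, 1)] p

/-- the word of a monomial -/
def wd {δ : ℕ} (s : Fin 3 → Fin (δ + 1)) (j : Fin (3 * δ)) : Option (Fin 2 × Fin 2) :=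
  if ((finProdFinEquiv.symm j).2 : ℕ) < (s (finProdFinEquiv.symm j).1 : ℕ) then some (ix (finProdFinEquiv.symm j).1) else none

lemma prod_if {M : Type} [CommMonoid M] (δ n : ℕ) (hn : n ≤ δ) (x : M) :
    ∏ q : Fin δ, (if (q : ℕ) < n then x else 1) = x ^ n := by
  rw [Fin.prod_univ_eq_prod_range (fun q => if q < n then x else 1) δ, Finset.prod_ite, Finset.prod_const_one, mul_one,
    Finset.prod_const]
  congr 1
  have : (Finset.range δ).filter (fun q => q < n) = Finset.range n := by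
    ext q
    simp only [Finset.mem_filter, Finset.mem_range]
    omega
  rw [this, Finset.card_range]

lemma Y3_ix (L : LD a b) (p : Fin 3) : L.Y (ix p).1 (ix p).2 = Y3 L p := by
  fin_cases p <;> rfl

lemma Yb_wd (L : LD a b) {δ : ℕ} (s : Fin 3 → Fin (δ + 1)) :
    Yb (fun x : Fin 2 × Fin 2 => L.Y x.1 x.2) (wd s) = ∏ p, Y3 L p ^ (s p : ℕ) := by
  rw [Yb]
  let f : Fin 3 × Fin δ → ℚ⟦X⟧ := fun pq => if (pq.2 : ℕ) < (s pq.1 : ℕ) then Y3 L pq.1 else 1
  have h1 : ∀ j, (wd s j).elim 1 (fun x : Fin 2 × Fin 2 => L.Y x.1 x.2) = f (finProdFinEquiv.symm j) := by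
    intro j
    rw [wd]
    show _ = if ((finProdFinEquiv.symm j).2 : ℕ) < (s (finProdFinEquiv.symm j).1 : ℕ) then Y3 L (finProdFinEquiv.symm j).1 else 1
    split_ifs
    · exact Y3_ix L _
    · rfl
  rw [Finset.prod_congr rfl fun j _ => h1 j, Equiv.prod_comp finProdFinEquiv.symm f, Fintype.prod_prod_type]
  refine Finset.prod_congr rfl fun p _ => ?_
  exact prod_if δ _ (Nat.lt_succ_iff.1 (s p).2) _

/-- the values at the shift `g` -/
noncomputable def X4 (L : LD a b) (t g : ℕ) (i : Fin 4) : ℂ :=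
  ![yv L 0 0 (1 / ((t - g : ℕ) : ℂ)), yv L 1 0 (1 / ((t - g : ℕ) : ℂ)), yv L 0 1 (1 / ((t - g : ℕ) : ℂ)),
    ((Real.log (1 - g / t) : ℝ) : ℂ)] i

lemma ev_Yb (L : LD a b) {R : ℝ} (hR : 1 ≤ R) (hY : ∀ i j, cx (L.Y i j) ∈ Cw R) {δ : ℕ} (s : Fin 3 → Fin (δ + 1)) {t : ℕ}
    (ht : R < t) : ((ev (t : ℝ) (Yb (fun x : Fin 2 × Fin 2 => L.Y x.1 x.2) (wd s)) : ℝ) : ℂ) =
      ∏ p, (![yv L 0 0 (1 / (t : ℂ)), yv L 1 0 (1 / (t : ℂ)), yv L 0 1 (1 / (t : ℂ))] p) ^ (s p : ℕ) := by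
  have hR0 : (0 : ℝ) ≤ R := by linarith
  have hz : R < ‖((t : ℝ) : ℂ)‖ := by
    rw [Complex.norm_real, Real.norm_of_nonneg (by linarith)]
    exact ht
  rw [Yb_wd, ← ou_ev, map_prod]
  simp only [map_pow]
  rw [ou_prod hR0 _ (fun p _ => (Cw R).pow_mem (Y3_mem L hY p) _) hz]
  refine Finset.prod_congr rfl fun p _ => ?_
  rw [ou_pow hR0 (Y3_mem L hY p) hz]
  congr 1
  rw [Complex.ofReal_natCast]
  fin_cases p <;> rfl

theorem base_Y3 (L : LD a b) (ha : a ≠ 0) (hD : De a b ≠ 0) {R : ℝ} (hR : 1 ≤ R) (hY : ∀ i j, cx (L.Y i j) ∈ Cw R)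
    {u0 : ℝ} (hu0 : 0 < u0) (h : ∀ u : ℝ, 0 < u → u < u0 → LocInd (fun p s => xs L p s) (u : ℂ))
    (hN : (∀ i j, L.N i j = 0) ∨ (L.m 0 = L.m 1 ∧ L.N 0 0 = 0 ∧ L.N 0 1 = 0 ∧ L.N 1 0 = 1 ∧ L.N 1 1 = 0)) :
    ∃ R' : ℕ, ∀ δ k : ℕ, ∃ E : ℕ, ∀ H t : ℕ, (H + 2) ^ E ≤ t → ∀ g : Fin k → ℕ, SepR R' g → (∀ l, g l ≤ H) →
      LinearIndependent ℚ (fun s : Fin k × Fin 4 → Fin (δ + 1) => ∏ i, X4 L t (g i.1) i.2 ^ (s i : ℕ)) := by
  classical
  obtain ⟨q, C, T, hT, hG⟩ := gsys_ld L ha hD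
  have hTc : Tld a b ≠ 0 := by
    intro h0
    have h1 := (Polynomial.map_eq_zero_iff (algebraMap ℚ ℂ).injective).1 h0
    exact (mul_ne_zero Polynomial.X_ne_zero hD) h1
  obtain ⟨R', hR'⟩ := base_gen h12 (y := fun x : Fin 2 × Fin 2 => L.Y x.1 x.2) hT hG hTc (fun x => ode_ld L x)
    (fun τ hτ hτY => qu_ld L hτ fun i j => hτY (i, j))
  refine ⟨R', fun δ k => ?_⟩
  have hli := li_Y3 L hR hY hu0 h hD hN δ
  have hinj : Function.Injective (wd : (Fin 3 → Fin (δ + 1)) → (Fin (3 * δ) → Option (Fin 2 × Fin 2))) := by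
    intro s s' hss
    apply hli.injective
    show ∏ p, Y3 L p ^ (s p : ℕ) = ∏ p, Y3 L p ^ (s' p : ℕ)
    rw [← Yb_wd, ← Yb_wd, hss]
  obtain ⟨E, hE⟩ := hR' (3 * δ) δ k (Finset.univ.image wd) (Finset.mem_image.2 ⟨fun _ => 0, Finset.mem_univ _, by
    funext j
    rw [wd, if_neg]
    simp⟩) (by
    intro g hg
    rw [Finset.sum_image fun s _ s' _ hss => hinj hss] at hg
    have h1 := (Fintype.linearIndependent_iff.1 hli) (fun s => g (wd s)) (by
      rw [← hg]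
      refine Finset.sum_congr rfl fun s _ => ?_
      rw [psmul, Yb_wd])
    intro i hi
    obtain ⟨s, -, rfl⟩ := Finset.mem_image.1 hi
    exact h1 s)
  obtain ⟨r, hr⟩ := exists_nat_ge R
  refine ⟨E + (r + 1), ?_⟩
  intro H t hHt g hg hgH
  have h1 : (H + 2) ^ E ≤ t := (Nat.pow_le_pow_right (by omega) (by omega)).trans hHt
  have hHt' : H + r < t := by
    have h1 : (H + 2) ^ (r + 1) ≤ t := (Nat.pow_le_pow_right (by omega) (by omega)).trans hHt
    have h2 : r < 2 ^ r := Nat.lt_two_pow_self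
    have h3 : 2 ^ r ≤ (H + 2) ^ r := Nat.pow_le_pow_left (by omega) _
    have h4 : (r + 1) * (H + 2) ≤ (H + 2) ^ (r + 1) := by
      rw [pow_succ]
      exact Nat.mul_le_mul_right _ (by omega)
    have h5 : H + r < (r + 1) * (H + 2) := by nlinarith
    omega
  have h2 := hE H t h1 g hg hgH
  have h3 := h2.comp (fun (s : Fin k × Fin 4 → Fin (δ + 1)) (l : Fin k) =>
      ((⟨wd fun p : Fin 3 => s (l, p.castSucc), Finset.mem_image_of_mem _ (Finset.mem_univ _)⟩ : Finset.univ.image wd), s (l, 3))) (by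
    intro s s' hss
    funext ⟨l, i⟩
    have h4 := congrFun hss l
    have h5 := congrArg (fun p : (Finset.univ.image wd) × Fin (δ + 1) => (p.1 : Fin (3 * δ) → Option (Fin 2 × Fin 2))) h4
    have h6 := congrArg (fun p : (Finset.univ.image wd) × Fin (δ + 1) => p.2) h4
    have h7 := hinj (a₁ := fun p : Fin 3 => s (l, p.castSucc)) (a₂ := fun p : Fin 3 => s' (l, p.castSucc)) h5
    refine Fin.lastCases ?_ (fun p => ?_) i
    · exact h6
    · exact congrFun h7 p)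
  refine (linearIndependent_iff'.1 h3 |> fun h4 => linearIndependent_iff'.2 ?_)
  convert h4 using 8 with S G s hs
  rw [Fintype.prod_prod_type]
  refine Finset.prod_congr rfl fun l _ => ?_
  rw [Fin.prod_univ_castSucc]
  have h8 : R < ((t - g l : ℕ) : ℝ) := by
    have h9 : r < t - g l := by
      have := hgH l
      omega
    exact hr.trans_lt (by exact_mod_cast h9)
  show _ = ((ev ((t - g l : ℕ) : ℝ) (Yb (fun x : Fin 2 × Fin 2 => L.Y x.1 x.2) (wd fun p : Fin 3 => s (l, p.castSucc))) : ℝ) : ℂ) * _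
  rw [ev_Yb L hR hY _ h8]
  congr 1

end Pool.Agent.Y124.TD
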