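import Mathlib

/-!
# A power series with a logarithmic companion is transcendental
-/

set_option autoImplicit false

open PowerSeries

namespace Pool.Agent.Y124.TD

/-- the logarithm is not a quotient of power series -/
lemma no_log {n d : ℂ⟦X⟧} {κ : ℂ} (hκ : κ ≠ 0) (hd : d ≠ 0)
    (h : X * (derivative ℂ n * d - n * derivative ℂ d) = C κ * d ^ 2) : False := by
  have fac : ∀ f : ℂ⟦X⟧, f ≠ 0 → ∃ (a : ℕ) (g : ℂ⟦X⟧), f = X ^ a * g ∧ constantCoeff g ≠ 0 := by
    intro f hf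
    obtain ⟨g, hg⟩ := X_pow_order_dvd (φ := f)
    refine ⟨f.order.toNat, g, hg, ?_⟩
    have h1 := coeff_order hf
    rw [hg] at h1
    have h2 : (X ^ f.order.toNat * g).order.toNat = f.order.toNat := by rw [← hg]
    rw [h2, coeff_X_pow_mul', if_pos le_rfl, Nat.sub_self, coeff_zero_eq_constantCoeff_apply] at h1
    exact h1
  obtain ⟨a, d', rfl, hd'⟩ := fac d hd
  have hder : ∀ (m : ℕ) (g : ℂ⟦X⟧), X * derivative ℂ (X ^ m * g) = X ^ m * (C (m : ℂ) * g + X * derivative ℂ g) := by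
    intro m g
    rw [Derivation.leibniz, Derivation.leibniz_pow, derivative_X]
    simp only [smul_eq_mul, nsmul_eq_mul, mul_one, map_natCast]
    rcases m with _ | m
    · simp
    · rw [Nat.add_sub_cancel]
      push_cast
      ring
  by_cases hn : n = 0
  · rw [hn] at h
    simp only [map_zero, zero_mul, sub_zero, mul_zero] at h
    have h1 := mul_eq_zero.1 h.symm
    rcases h1 with h1 | h1
    · exact hκ (by simpa using congrArg constantCoeff h1)
    · exact hd (pow_eq_zero_iff (two_ne_zero) |>.1 h1)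
  obtain ⟨b, n', rfl, hn'⟩ := fac n hn
  have h1 : X ^ (a + b) * (C ((b : ℂ) - a) * (n' * d') + X * (derivative ℂ n' * d' - n' * derivative ℂ d')) =
      X ^ (2 * a) * (C κ * d' ^ 2) := by
    have e1 := hder b n'
    have e2 := hder a d'
    have e3 : X * (derivative ℂ (X ^ b * n') * (X ^ a * d') - X ^ b * n' * derivative ℂ (X ^ a * d')) =
        (X * derivative ℂ (X ^ b * n')) * (X ^ a * d') - X ^ b * n' * (X * derivative ℂ (X ^ a * d')) := by ring
    rw [e3, e1, e2] at h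
    rw [map_sub, pow_add, show 2 * a = a + a by ring, pow_add]
    linear_combination h
  rcases lt_trichotomy b a with hlt | heq | hgt
  · obtain ⟨k, rfl⟩ := Nat.exists_eq_add_of_lt hlt
    have h2 : X ^ (b + k + 1 + b) * (C ((b : ℂ) - ((b + k + 1 : ℕ) : ℂ)) * (n' * d') + X * (derivative ℂ n' * d' - n' * derivative ℂ d')) =
        X ^ (b + k + 1 + b) * (X ^ (k + 1) * (C κ * d' ^ 2)) := by
      have h0 : (X : ℂ⟦X⟧) ^ (2 * (b + k + 1)) = X ^ (b + k + 1 + b) * X ^ (k + 1) := by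
        rw [← pow_add]
        congr 1
        omega
      rw [h1, h0, mul_assoc]
    have h3 := mul_left_cancel₀ (pow_ne_zero _ X_ne_zero) h2
    have h4 := congrArg constantCoeff h3
    simp only [map_add, map_mul, map_sub, constantCoeff_X, zero_mul, add_zero, map_pow, constantCoeff_C] at h4
    rw [zero_pow (Nat.succ_ne_zero k), zero_mul] at h4
    rcases mul_eq_zero.1 h4 with h5 | h5
    · push_cast at h5
      have h6 : ((k : ℂ) + 1) = 0 := by linear_combination -h5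
      exact Nat.cast_add_one_ne_zero k h6
    · exact mul_ne_zero hn' hd' h5
  · subst heq
    rw [sub_self, map_zero, zero_mul, zero_add, show 2 * b = b + b by ring] at h1
    have h3 := mul_left_cancel₀ (pow_ne_zero _ X_ne_zero) h1
    have h4 := congrArg constantCoeff h3
    simp only [map_mul, constantCoeff_X, zero_mul, map_pow, constantCoeff_C] at h4
    exact mul_ne_zero hκ (pow_ne_zero _ hd') h4.symm
  · obtain ⟨k, rfl⟩ := Nat.exists_eq_add_of_lt hgt
    have h2 : X ^ (2 * a) * (X ^ (k + 1) * (C (((a + k + 1 : ℕ) : ℂ) - a) * (n' * d') + X * (derivative ℂ n' * d' - n' * derivative ℂ d'))) =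
        X ^ (2 * a) * (C κ * d' ^ 2) := by
      rw [← h1, ← mul_assoc, ← pow_add]
      congr 2
      omega
    have h3 := mul_left_cancel₀ (pow_ne_zero _ X_ne_zero) h2
    have h4 := congrArg constantCoeff h3
    simp only [map_mul, map_pow, constantCoeff_X, constantCoeff_C] at h4
    rw [zero_pow (Nat.succ_ne_zero k), zero_mul] at h4
    exact mul_ne_zero hκ (pow_ne_zero _ hd') h4.symm

/-- polynomials in two unknowns -/
abbrev RR := MvPolynomial (Fin 2) (Polynomial ℂ)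

/-- evaluation at multiples of `A` and `B` -/
noncomputable def evm (A B : ℂ⟦X⟧) (μ : ℂ) : RR →+* ℂ⟦X⟧ :=
  MvPolynomial.eval₂Hom (Polynomial.coeToPowerSeries.ringHom) (fun i => C μ * ![A, B] i)

lemma evm_C (A B : ℂ⟦X⟧) (μ : ℂ) (p : Polynomial ℂ) : evm A B μ (MvPolynomial.C p) = (p : ℂ⟦X⟧) := by
  rw [evm, MvPolynomial.eval₂Hom_C]
  rfl

lemma evm_X (A B : ℂ⟦X⟧) (μ : ℂ) (i : Fin 2) : evm A B μ (MvPolynomial.X i) = C μ * ![A, B] i := by
  rw [evm, MvPolynomial.eval₂Hom_X']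

lemma exists_der {D a b c e : Polynomial ℂ} {A B : ℂ⟦X⟧}
    (hA : (D : ℂ⟦X⟧) * (X * derivative ℂ A) = (a : ℂ⟦X⟧) * A + (b : ℂ⟦X⟧) * B)
    (hB : (D : ℂ⟦X⟧) * (X * derivative ℂ B) = (c : ℂ⟦X⟧) * A + (e : ℂ⟦X⟧) * B) (P : RR) :
    ∃ Q : RR, ∀ μ : ℂ, (D : ℂ⟦X⟧) * (X * derivative ℂ (evm A B μ P)) = evm A B μ Q := by
  induction P using MvPolynomial.induction_on with
  | C p =>
    refine ⟨MvPolynomial.C (D * (Polynomial.X * Polynomial.derivative p)), fun μ => ?_⟩
    rw [evm_C, evm_C, derivative_coe, Polynomial.coe_mul, Polynomial.coe_mul, Polynomial.coe_X]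
  | add p q hp hq =>
    obtain ⟨P, hP⟩ := hp
    obtain ⟨Q, hQ⟩ := hq
    refine ⟨P + Q, fun μ => ?_⟩
    rw [map_add, map_add, map_add, ← hP, ← hQ]
    ring
  | mul_X p i hp =>
    obtain ⟨P, hP⟩ := hp
    fin_cases i
    · refine ⟨P * MvPolynomial.X 0 + p * (MvPolynomial.C a * MvPolynomial.X 0 + MvPolynomial.C b * MvPolynomial.X 1), fun μ => ?_⟩
      simp only [Fin.zero_eta, map_mul, map_add, evm_C, evm_X, Matrix.cons_val_zero, Matrix.cons_val_one]
      rw [← hP, Derivation.leibniz, Derivation.leibniz, derivative_C]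
      simp only [smul_eq_mul, mul_zero, add_zero]
      linear_combination (C μ * evm A B μ p) * hA
    · refine ⟨P * MvPolynomial.X 1 + p * (MvPolynomial.C c * MvPolynomial.X 0 + MvPolynomial.C e * MvPolynomial.X 1), fun μ => ?_⟩
      simp only [Fin.mk_one, map_mul, map_add, evm_C, evm_X, Matrix.cons_val_zero, Matrix.cons_val_one]
      rw [← hP, Derivation.leibniz, Derivation.leibniz, derivative_C]
      simp only [smul_eq_mul, mul_zero, add_zero]
      linear_combination (C μ * evm A B μ p) * hB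

/-- **A power series with a logarithmic companion is transcendental.** -/
theorem log_free {D a b c e G₀ : Polynomial ℂ} {A B T : ℂ⟦X⟧} {κ : ℂ} (hD : D ≠ 0) (hκ : κ ≠ 0)
    (hA : (D : ℂ⟦X⟧) * (X * derivative ℂ A) = (a : ℂ⟦X⟧) * A + (b : ℂ⟦X⟧) * B)
    (hB : (D : ℂ⟦X⟧) * (X * derivative ℂ B) = (c : ℂ⟦X⟧) * A + (e : ℂ⟦X⟧) * B)
    (hT : A * ((D : ℂ⟦X⟧) * (X * derivative ℂ T)) = ((a : ℂ⟦X⟧) * A + (b : ℂ⟦X⟧) * B) * T + (D : ℂ⟦X⟧) * (C κ * A ^ 2) + (G₀ : ℂ⟦X⟧))
    (hLI : ∀ P : RR, evm A B 1 P = 0 → P = 0) (Φ : Polynomial RR) (hΦ : Φ.eval₂ (evm A B 1) T = 0) : Φ = 0 := by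
  classical
  by_contra hΦ0
  -- a relation of smallest degree
  have hex : ∃ n : ℕ, ∃ Ψ : Polynomial RR, Ψ ≠ 0 ∧ Ψ.eval₂ (evm A B 1) T = 0 ∧ Ψ.natDegree = n := ⟨_, Φ, hΦ0, hΦ, rfl⟩
  obtain ⟨Ψ, hΨ0, hΨ, hM⟩ := Nat.find_spec hex
  have hmin : ∀ Θ : Polynomial RR, Θ.eval₂ (evm A B 1) T = 0 → Θ.natDegree < Nat.find hex → Θ = 0 := by
    intro Θ h1 h2
    by_contra h3
    exact Nat.find_min hex h2 ⟨Θ, h3, h1, rfl⟩
  set M := Nat.find hex with hMd
  have hA0 : A ≠ 0 := by
    intro h0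
    have := hLI (MvPolynomial.X 0) (by rw [evm_X, Matrix.cons_val_zero, h0, mul_zero])
    exact MvPolynomial.X_ne_zero 0 this
  have hDs : (D : ℂ⟦X⟧) ≠ 0 := by exact_mod_cast hD
  have hMpos : M ≠ 0 := by
    intro h0
    have h1 := Polynomial.eq_C_of_natDegree_eq_zero (hM.trans h0)
    rw [h1, Polynomial.eval₂_C] at hΨ
    rw [hLI _ hΨ, Polynomial.C_0] at h1
    exact hΨ0 h1
  obtain ⟨m, hm⟩ : ∃ m, M = m + 1 := Nat.exists_eq_succ_of_ne_zero hMpos
  choose der hder using exists_der hA hB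
  -- notation
  set η : RR := MvPolynomial.C a * MvPolynomial.X 0 + MvPolynomial.C b * MvPolynomial.X 1 with hη
  set x : RR := MvPolynomial.X 0 with hx
  set G : RR := MvPolynomial.C D * (MvPolynomial.C (Polynomial.C κ) * x ^ 2) + MvPolynomial.C G₀ with hG
  have eη : ∀ μ : ℂ, evm A B μ η = C μ * ((a : ℂ⟦X⟧) * A + (b : ℂ⟦X⟧) * B) := by
    intro μ
    have e0 : (![A, B] : Fin 2 → ℂ⟦X⟧) 0 = A := rfl
    have e1 : (![A, B] : Fin 2 → ℂ⟦X⟧) 1 = B := rfl
    rw [hη, map_add, map_mul, map_mul, evm_C, evm_C, evm_X, evm_X, e0, e1]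
    ring
  have ex : ∀ μ : ℂ, evm A B μ x = C μ * A := fun μ => by rw [hx, evm_X, Matrix.cons_val_zero]
  have eG : ∀ μ : ℂ, evm A B μ G = (D : ℂ⟦X⟧) * (C κ * (C μ * A) ^ 2) + (G₀ : ℂ⟦X⟧) := by
    intro μ
    rw [hG, map_add, map_mul, map_mul, map_pow, ex, evm_C, evm_C, evm_C, Polynomial.coe_C]
  -- the derived relation
  set φ : ℕ → RR := fun i => Ψ.coeff i with hφ
  set ψ : ℕ → RR := fun i => x * der (φ i) + (i : RR) * (η * φ i) + ((i : RR) + 1) * (G * φ (i + 1)) with hψ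
  have hφM : φ M ≠ 0 := by
    have h1 := Polynomial.leadingCoeff_ne_zero.2 hΨ0
    rw [Polynomial.leadingCoeff, hM] at h1
    exact h1
  have hφM1 : φ (M + 1) = 0 := Polynomial.coeff_eq_zero_of_natDegree_lt (by rw [hM]; exact Nat.lt_succ_self _)
  have hrel : ∑ i ∈ Finset.range (M + 1), evm A B 1 (φ i) * T ^ i = 0 := by
    rw [← hΨ, Polynomial.eval₂_eq_sum_range, hM]
  have hrel1 : ∑ i ∈ Finset.range (M + 1), evm A B 1 (ψ i) * T ^ i = 0 := by
    have h1 : A * ((D : ℂ⟦X⟧) * (X * derivative ℂ (∑ i ∈ Finset.range (M + 1), evm A B 1 (φ i) * T ^ i))) = 0 := by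
      rw [hrel]; simp
    rw [map_sum, Finset.mul_sum, Finset.mul_sum, Finset.mul_sum] at h1
    have h2 : ∀ i, A * ((D : ℂ⟦X⟧) * (X * derivative ℂ (evm A B 1 (φ i) * T ^ i))) =
        evm A B 1 (x * der (φ i) + (i : RR) * (η * φ i)) * T ^ i + (i : ℂ⟦X⟧) * evm A B 1 (G * φ i) * T ^ (i - 1) := by
      intro i
      rw [Derivation.leibniz, Derivation.leibniz_pow]
      simp only [smul_eq_mul, nsmul_eq_mul]
      rw [map_add, map_mul, map_mul, map_mul, map_mul, map_natCast, ← hder, ex, eη, eG, map_one, one_mul, one_mul]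
      rcases i with _ | i
      · simp
      · rw [Nat.add_sub_cancel, pow_succ]
        linear_combination (((i + 1 : ℕ) : ℂ⟦X⟧) * evm A B 1 (φ (i + 1)) * T ^ i) * hT
    rw [Finset.sum_congr rfl fun i _ => h2 i, Finset.sum_add_distrib] at h1
    have h3 : ∑ i ∈ Finset.range (M + 1), (i : ℂ⟦X⟧) * evm A B 1 (G * φ i) * T ^ (i - 1) =
        ∑ i ∈ Finset.range (M + 1), evm A B 1 (((i : RR) + 1) * (G * φ (i + 1))) * T ^ i := by
      rw [Finset.sum_range_succ', Finset.sum_range_succ _ M]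
      rw [hφM1]
      simp only [Nat.cast_zero, zero_mul, add_zero, mul_zero, map_zero, Nat.add_sub_cancel]
      refine Finset.sum_congr rfl fun i _ => ?_
      have e1 : evm A B 1 ((i : RR) + 1) = (i : ℂ⟦X⟧) + 1 := by rw [map_add, map_natCast, map_one]
      rw [map_mul (evm A B 1) ((i : RR) + 1), e1]
      push_cast
      ring
    rw [h3, ← Finset.sum_add_distrib] at h1
    rw [← h1]
    refine Finset.sum_congr rfl fun i _ => ?_
    rw [hψ]
    dsimp only
    rw [map_add _ (x * der (φ i) + (i : RR) * (η * φ i))]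
    ring
  -- elimination
  set Θ : Polynomial RR := ∑ i ∈ Finset.range M, Polynomial.C (φ M * ψ i - ψ M * φ i) * Polynomial.X ^ i with hΘ
  have hΘd : Θ.natDegree < M := by
    refine lt_of_le_of_lt (Polynomial.natDegree_sum_le_of_forall_le _ _ (n := m) fun i hi => ?_) (by omega)
    refine (Polynomial.natDegree_C_mul_X_pow_le _ _).trans ?_
    rw [Finset.mem_range] at hi
    omega
  have hΘe : Θ.eval₂ (evm A B 1) T = 0 := by
    rw [hΘ, Polynomial.eval₂_finsetSum]
    have h1 : ∀ i, (Polynomial.C (φ M * ψ i - ψ M * φ i) * Polynomial.X ^ i).eval₂ (evm A B 1) T =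
        evm A B 1 (φ M) * (evm A B 1 (ψ i) * T ^ i) - evm A B 1 (ψ M) * (evm A B 1 (φ i) * T ^ i) := by
      intro i
      rw [Polynomial.eval₂_mul, Polynomial.eval₂_C, Polynomial.eval₂_pow, Polynomial.eval₂_X, map_sub, map_mul, map_mul]
      ring
    rw [Finset.sum_congr rfl fun i _ => h1 i, Finset.sum_sub_distrib, ← Finset.mul_sum, ← Finset.mul_sum]
    rw [Finset.sum_range_succ] at hrel hrel1
    linear_combination (evm A B 1 (φ M)) * hrel1 - (evm A B 1 (ψ M)) * hrel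
  have hΘ0 := hmin Θ hΘe hΘd
  have hcoef : φ M * ψ m - ψ M * φ m = 0 := by
    have h1 : Θ.coeff m = φ M * ψ m - ψ M * φ m := by
      rw [hΘ, Polynomial.finsetSum_coeff, Finset.sum_eq_single m]
      · rw [Polynomial.coeff_C_mul, Polynomial.coeff_X_pow, if_pos rfl, mul_one]
      · intro i _ hi
        rw [Polynomial.coeff_C_mul, Polynomial.coeff_X_pow, if_neg (Ne.symm hi), mul_zero]
      · intro h
        exact absurd (Finset.mem_range.2 (by omega)) h
    rw [← h1, hΘ0, Polynomial.coeff_zero]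
  have hI : x * (φ M * der (φ m) - φ m * der (φ M)) - η * (φ M * φ m) + (M : RR) * (G * φ M ^ 2) = 0 := by
    have h1 : ψ m = x * der (φ m) + (m : RR) * (η * φ m) + ((m : RR) + 1) * (G * φ M) := by
      rw [hψ, hm]
    have h2 : ψ M = x * der (φ M) + (M : RR) * (η * φ M) := by
      rw [hψ]
      dsimp only
      rw [hφM1, mul_zero, mul_zero, add_zero]
    have h3 : (M : RR) = (m : RR) + 1 := by rw [hm]; push_cast; ring
    rw [h1, h2] at hcoef
    rw [h3] at hcoef ⊢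
    linear_combination hcoef
  -- evaluation at two scales
  have hI' : ∀ μ : ℂ, C μ * A * (evm A B μ (φ M) * ((D : ℂ⟦X⟧) * (X * derivative ℂ (evm A B μ (φ m)))) -
      evm A B μ (φ m) * ((D : ℂ⟦X⟧) * (X * derivative ℂ (evm A B μ (φ M))))) - C μ * ((D : ℂ⟦X⟧) * (X * derivative ℂ A)) *
        (evm A B μ (φ M) * evm A B μ (φ m)) + (M : ℂ⟦X⟧) * (((D : ℂ⟦X⟧) * (C κ * (C μ * A) ^ 2) + (G₀ : ℂ⟦X⟧)) * evm A B μ (φ M) ^ 2) = 0 := by
    intro μ
    have h1 := congrArg (evm A B μ) hI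
    rw [map_add, map_sub, map_mul, map_sub, map_mul, map_mul, map_mul, map_mul, map_mul, map_mul, map_pow, map_natCast, ← hder, ← hder,
      ex, eη, eG, map_zero] at h1
    rw [hA]
    exact h1
  have h1 := hI' 1
  have h2 := hI' 2
  have hC2 : (C (2 : ℂ) : ℂ⟦X⟧) = 2 := map_ofNat _ 2
  simp only [map_one, one_mul] at h1
  rw [hC2] at h2
  set p₀ := evm A B 1 (φ M) with hp₀
  set p₁ := evm A B 1 (φ m) with hp₁
  set q₀ := evm A B 2 (φ M) with hq₀
  set q₁ := evm A B 2 (φ m) with hq₁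
  have hp₀0 : p₀ ≠ 0 := fun h => hφM (hLI _ h)
  have hq₀0 : q₀ ≠ 0 := by
    intro h
    apply hφM
    -- rescaling is injective
    have h3 : ∀ P : RR, evm A B 2 P = evm A B 1 (MvPolynomial.eval₂Hom MvPolynomial.C (fun i => MvPolynomial.C (Polynomial.C 2) * MvPolynomial.X i) P) := by
      intro P
      induction P using MvPolynomial.induction_on with
      | C p => rw [evm_C, MvPolynomial.eval₂Hom_C, evm_C]
      | add p q hp hq => rw [map_add, map_add, map_add, hp, hq]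
      | mul_X p i hp =>
        rw [map_mul, map_mul, map_mul, ← hp, MvPolynomial.eval₂Hom_X', map_mul, evm_C, evm_X, evm_X, Polynomial.coe_C, map_one, one_mul]
    have h4 : ∀ P : RR, MvPolynomial.eval₂Hom MvPolynomial.C (fun i => MvPolynomial.C (Polynomial.C (1 / 2)) * MvPolynomial.X i)
        (MvPolynomial.eval₂Hom MvPolynomial.C (fun i => MvPolynomial.C (Polynomial.C 2) * MvPolynomial.X i) P) = P := by
      intro P
      induction P using MvPolynomial.induction_on with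
      | C p => rw [MvPolynomial.eval₂Hom_C, MvPolynomial.eval₂Hom_C]
      | add p q hp hq => rw [map_add, map_add, hp, hq]
      | mul_X p i hp =>
        have e5 : (MvPolynomial.C (Polynomial.C (2 : ℂ)) : RR) * MvPolynomial.C (Polynomial.C (1 / 2)) = 1 := by
          rw [← MvPolynomial.C_mul, ← Polynomial.C_mul]
          norm_num
        rw [map_mul, map_mul, hp, MvPolynomial.eval₂Hom_X', map_mul, MvPolynomial.eval₂Hom_C, MvPolynomial.eval₂Hom_X']
        linear_combination (p * MvPolynomial.X i) * e5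
    rw [hq₀, h3] at h
    have h5 := hLI _ h
    rw [← h4 (φ M), h5, map_zero]
  set d : ℂ⟦X⟧ := A * p₀ * q₀ with hd
  set n : ℂ⟦X⟧ := 2 * q₁ * p₀ - p₁ * q₀ with hn
  have hd0 : d ≠ 0 := mul_ne_zero (mul_ne_zero hA0 hp₀0) hq₀0
  refine no_log (n := n) (d := d) (κ := -(3 * κ * (M : ℂ))) ?_ hd0 ?_
  · refine neg_ne_zero.2 (mul_ne_zero (mul_ne_zero (by norm_num) hκ) ?_)
    exact_mod_cast hMpos
  · apply mul_left_cancel₀ hDs
    have h2' : derivative ℂ (2 : ℂ⟦X⟧) = 0 := by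
      rw [← hC2, derivative_C]
    have hn' : derivative ℂ n = 2 * (derivative ℂ q₁ * p₀ + q₁ * derivative ℂ p₀) - (derivative ℂ p₁ * q₀ + p₁ * derivative ℂ q₀) := by
      rw [hn, map_sub, Derivation.leibniz, Derivation.leibniz, Derivation.leibniz, h2']
      simp only [smul_eq_mul]
      ring
    have hd' : derivative ℂ d = derivative ℂ A * p₀ * q₀ + A * derivative ℂ p₀ * q₀ + A * p₀ * derivative ℂ q₀ := by
      rw [hd, Derivation.leibniz, Derivation.leibniz]
      simp only [smul_eq_mul]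
      ring
    rw [hn', hd', hn, hd]
    have hCκ : (C (-(3 * κ * (M : ℂ))) : ℂ⟦X⟧) = -(3 * C κ * (M : ℂ⟦X⟧)) := by
      rw [map_neg, map_mul, map_mul, map_natCast]
      congr 3
    rw [hCκ]
    linear_combination (p₀ ^ 2) * h2 - (q₀ ^ 2) * h1

end Pool.Agent.Y124.TD
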