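import Pool.Agent.Y120.G.Win

/-!
# Growth of the powers of a space of numbers
-/

set_option autoImplicit false

open Module Finset

namespace Pool.Agent.Y124.TD

open Pool.Agent.Y120.GF

variable {K : IntermediateField ℚ ℂ}

/-- the powers of `W` have dimensions of growth at most `e`, up to common denominators -/
def GR (c e : ℕ) (W : Submodule K ℂ) : Prop :=
  ∀ n : ℕ, ∃ (q : ℂ) (F : Submodule ℚ ℂ), q ≠ 0 ∧ Module.Finite ℚ F ∧ finrank ℚ F ≤ c * (n + 1) ^ e ∧ ∀ x ∈ W ^ n, q * x ∈ F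

lemma GR.mono {c c' e : ℕ} (hc : c ≤ c') {W : Submodule K ℂ} (h : GR c e W) : GR c' e W := by
  intro n
  obtain ⟨q, F, h1, h2, h3, h4⟩ := h n
  exact ⟨q, F, h1, h2, h3.trans (Nat.mul_le_mul_right _ hc), h4⟩

lemma gr_one {D : ℕ} [FiniteDimensional ℚ K] (hD : finrank ℚ K ≤ D) : GR D 0 (1 : Submodule K ℂ) := by
  intro n
  refine ⟨1, Subalgebra.toSubmodule K.toSubalgebra, one_ne_zero, inferInstanceAs (Module.Finite ℚ K), ?_, ?_⟩
  · rw [pow_zero, mul_one]
    exact hD
  · intro x hx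
    rw [one_pow, Submodule.mem_one] at hx
    obtain ⟨y, rfl⟩ := hx
    rw [one_mul]
    exact y.2

lemma one_mem_pow {W : Submodule K ℂ} (h1 : (1 : ℂ) ∈ W) (n : ℕ) : (1 : ℂ) ∈ W ^ n := by
  induction n with
  | zero =>
    rw [pow_zero]
    exact Submodule.one_le.1 le_rfl
  | succ n ih =>
    rw [pow_succ, ← one_mul (1 : ℂ)]
    exact Submodule.mul_mem_mul ih h1

lemma pow_mem_add {W : Submodule K ℂ} {a b : ℕ} {x y : ℂ} (hx : x ∈ W ^ a) (hy : y ∈ W ^ b) : x * y ∈ W ^ (a + b) := by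
  rw [pow_add]
  exact Submodule.mul_mem_mul hx hy

lemma pow_mem_mono {W : Submodule K ℂ} (h1 : (1 : ℂ) ∈ W) {a b : ℕ} (hab : a ≤ b) {x : ℂ} (hx : x ∈ W ^ a) : x ∈ W ^ b := by
  obtain ⟨k, rfl⟩ := Nat.exists_eq_add_of_le hab
  have := pow_mem_add hx (one_mem_pow h1 k)
  rwa [mul_one] at this

lemma mem_pow_le {W W' : Submodule K ℂ} (h : W ≤ W') {n : ℕ} {x : ℂ} (hx : x ∈ W ^ n) : x ∈ W' ^ n := by
  have key : ∀ k : ℕ, W ^ k ≤ W' ^ k := by
    intro k
    induction k with
    | zero => rw [pow_zero, pow_zero]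
    | succ k ih =>
      rw [pow_succ, pow_succ]
      exact mul_le_mul' ih h
  exact key n hx

lemma mem_pow_pow {W : Submodule K ℂ} {d : ℕ} {x : ℂ} (hx : x ∈ W ^ d) (n : ℕ) : x ^ n ∈ W ^ (d * n) := by
  rw [pow_mul]
  exact Submodule.pow_mem_pow _ hx n

lemma mem_pow_prod {W : Submodule K ℂ} {ι : Type} (s : Finset ι) (d : ι → ℕ) (x : ι → ℂ) (hx : ∀ i ∈ s, x i ∈ W ^ d i) :
    ∏ i ∈ s, x i ∈ W ^ (∑ i ∈ s, d i) := by
  classical
  induction s using Finset.induction_on with
  | empty =>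
    rw [Finset.prod_empty, Finset.sum_empty, pow_zero]
    exact Submodule.one_le.1 le_rfl
  | insert a s ha ih =>
    rw [Finset.prod_insert ha, Finset.sum_insert ha]
    exact pow_mem_add (hx a (Finset.mem_insert_self _ _)) (ih fun i hi => hx i (Finset.mem_insert_of_mem hi))

/-- elements of the powers of an extension -/
lemma mem_pow_sup {W : Submodule K ℂ} (h1 : (1 : ℂ) ∈ W) (z : ℂ) (n : ℕ) : ∀ {x : ℂ}, x ∈ (W ⊔ Submodule.span K {z}) ^ n →
    ∃ P : Polynomial ℂ, P.natDegree ≤ n ∧ (∀ i, P.coeff i ∈ W ^ n) ∧ P.eval z = x := by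
  induction n with
  | zero =>
    intro x hx
    refine ⟨Polynomial.C x, by simp, fun i => ?_, by simp⟩
    rw [Polynomial.coeff_C]
    split_ifs
    · rwa [pow_zero] at hx ⊢
    · exact Submodule.zero_mem _
  | succ n ih =>
    intro x hx
    rw [pow_succ] at hx
    refine Submodule.mul_induction_on hx ?_ ?_
    · intro a ha b hb
      obtain ⟨P, hP1, hP2, rfl⟩ := ih ha
      obtain ⟨b0, hb0, b1, hb1, rfl⟩ := Submodule.mem_sup.1 hb
      obtain ⟨κ, rfl⟩ := Submodule.mem_span_singleton.1 hb1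
      refine ⟨P * Polynomial.C b0 + P * Polynomial.C (κ : ℂ) * Polynomial.X, ?_, ?_, ?_⟩
      · refine (Polynomial.natDegree_add_le _ _).trans (max_le ?_ ?_)
        · exact (Polynomial.natDegree_mul_C_le _ _).trans (hP1.trans (Nat.le_succ n))
        · refine Polynomial.natDegree_mul_le.trans ?_
          refine Nat.add_le_add ((Polynomial.natDegree_mul_C_le _ _).trans hP1) Polynomial.natDegree_X_le
      · intro i
        rw [Polynomial.coeff_add, Polynomial.coeff_mul_C]
        refine Submodule.add_mem _ ?_ ?_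
        · rw [pow_succ]
          exact Submodule.mul_mem_mul (hP2 i) hb0
        · rcases i with _ | i
          · rw [Polynomial.coeff_mul_X_zero]
            exact Submodule.zero_mem _
          · rw [Polynomial.coeff_mul_X, Polynomial.coeff_mul_C]
            refine pow_mem_mono h1 (Nat.le_succ n) ?_
            have h2 : P.coeff i * (κ : ℂ) = κ • P.coeff i := by
              rw [mul_comm]
              rfl
            rw [h2]
            exact Submodule.smul_mem _ _ (hP2 i)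
      · simp only [Polynomial.eval_add, Polynomial.eval_mul, Polynomial.eval_C, Polynomial.eval_X]
        rw [mul_add]
        congr 1
        show _ = _ * ((κ : ℂ) * z)
        ring
    · intro a b ha hb
      obtain ⟨P, hP1, hP2, rfl⟩ := ha
      obtain ⟨Q, hQ1, hQ2, rfl⟩ := hb
      refine ⟨P + Q, (Polynomial.natDegree_add_le _ _).trans (max_le hP1 hQ1), fun i => ?_, Polynomial.eval_add⟩
      rw [Polynomial.coeff_add]
      exact Submodule.add_mem _ (hP2 i) (hQ2 i)

/-- adding a number raises the growth by one -/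
lemma gr_trans {c e : ℕ} {W : Submodule K ℂ} (h1 : (1 : ℂ) ∈ W) (h : GR c e W) (z : ℂ) :
    GR c (e + 1) (W ⊔ Submodule.span K {z}) := by
  intro n
  obtain ⟨q, F, hq, hF, hFd, hFm⟩ := h n
  refine ⟨q, Ext F fun i : Fin (n + 1) => z ^ (i : ℕ), hq, inferInstance, ?_, ?_⟩
  · refine (finrank_Ext F _).trans ?_
    rw [Fintype.card_fin, pow_succ, ← mul_assoc, mul_comm (n + 1)]
    exact Nat.mul_le_mul_right _ hFd
  · intro x hx
    obtain ⟨P, hP1, hP2, rfl⟩ := mem_pow_sup h1 z n hx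
    rw [Polynomial.eval_eq_sum_range' (Nat.lt_succ_of_le hP1), Finset.mul_sum, ← Fin.sum_univ_eq_sum_range (fun i => q * (P.coeff i * z ^ i)) (n + 1)]
    have h2 : ∀ i : Fin (n + 1), q * (P.coeff i * z ^ (i : ℕ)) = (q * P.coeff i) * z ^ (i : ℕ) := fun i => by ring
    rw [Finset.sum_congr rfl fun i _ => h2 i]
    exact mem_Ext F _ fun i => hFm _ (hP2 i)

/-- the powers of an algebraic number -/
lemma alg_pow {W : Submodule K ℂ} {d m : ℕ} {l w : ℂ} {κ : ℕ → ℂ} (hl : l ∈ W ^ d) (hκ : ∀ j, κ j ∈ W ^ d)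
    (hrel : l * w ^ (m + 1) = ∑ j ∈ range (m + 1), κ j * w ^ j) (i : ℕ) :
    ∃ c : ℕ → ℂ, (∀ j, c j ∈ W ^ (d * i)) ∧ l ^ i * w ^ i = ∑ j ∈ range (m + 1), c j * w ^ j := by
  induction i with
  | zero =>
    refine ⟨fun j => if j = 0 then 1 else 0, fun j => ?_, ?_⟩
    · dsimp only
      split_ifs
      · rw [mul_zero, pow_zero]
        exact Submodule.one_le.1 le_rfl
      · exact Submodule.zero_mem _
    · rw [Finset.sum_range_succ']
      simp
  | succ i ih =>
    obtain ⟨c, hc, h⟩ := ih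
    refine ⟨fun j => (if j = 0 then 0 else l * c (j - 1)) + c m * κ j, fun j => ?_, ?_⟩
    · dsimp only
      refine Submodule.add_mem _ ?_ ?_
      · split_ifs
        · exact Submodule.zero_mem _
        · rw [mul_comm l, Nat.mul_succ]
          exact pow_mem_add (hc _) hl
      · rw [Nat.mul_succ]
        exact pow_mem_add (hc _) (hκ _)
    · have h2 : l ^ (i + 1) * w ^ (i + 1) = l * w * (l ^ i * w ^ i) := by ring
      rw [h2, h]
      simp only [add_mul, Finset.sum_add_distrib]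
      have h3 : ∑ j ∈ range (m + 1), c m * κ j * w ^ j = c m * (l * w ^ (m + 1)) := by
        rw [hrel, Finset.mul_sum]
        exact Finset.sum_congr rfl fun j _ => by ring
      rw [h3, Finset.sum_range_succ, Finset.sum_range_succ']
      simp only [if_true, zero_mul, add_zero, Nat.add_sub_cancel, Nat.succ_ne_zero, if_false]
      rw [mul_add, Finset.mul_sum]
      congr 1
      · exact Finset.sum_congr rfl fun j _ => by ring
      · ring

/-- adding an algebraic number does not raise the growth -/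
lemma gr_alg {c e d m : ℕ} {W : Submodule K ℂ} (h1 : (1 : ℂ) ∈ W) (h : GR c e W) {l w : ℂ} {κ : ℕ → ℂ} (hl0 : l ≠ 0)
    (hl : l ∈ W ^ d) (hκ : ∀ j, κ j ∈ W ^ d) (hrel : l * w ^ (m + 1) = ∑ j ∈ range (m + 1), κ j * w ^ j) :
    GR ((m + 1) * (1 + d) ^ e * c) e (W ⊔ Submodule.span K {w}) := by
  intro n
  obtain ⟨q, F, hq, hF, hFd, hFm⟩ := h ((1 + d) * n)
  refine ⟨q * l ^ n, Ext F fun i : Fin (m + 1) => w ^ (i : ℕ), mul_ne_zero hq (pow_ne_zero _ hl0), inferInstance, ?_, ?_⟩
  · refine (finrank_Ext F _).trans ?_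
    rw [Fintype.card_fin]
    calc (m + 1) * finrank ℚ F ≤ (m + 1) * (c * ((1 + d) * n + 1) ^ e) := Nat.mul_le_mul_left _ hFd
      _ ≤ (m + 1) * (c * ((1 + d) * (n + 1)) ^ e) := by
        refine Nat.mul_le_mul_left _ (Nat.mul_le_mul_left _ (Nat.pow_le_pow_left ?_ _))
        rw [mul_add, mul_one]
        omega
      _ = _ := by rw [mul_pow]; ring
  · intro x hx
    obtain ⟨P, hP1, hP2, rfl⟩ := mem_pow_sup h1 w n hx
    choose cc hcc hcw using fun i => alg_pow hl hκ hrel i
    have key : l ^ n * P.eval w = ∑ j ∈ range (m + 1), (∑ i ∈ range (n + 1), P.coeff i * l ^ (n - i) * cc i j) * w ^ j := by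
      rw [Polynomial.eval_eq_sum_range' (Nat.lt_succ_of_le hP1), Finset.mul_sum]
      simp only [Finset.sum_mul]
      rw [Finset.sum_comm]
      refine Finset.sum_congr rfl fun i hi => ?_
      have hin : i ≤ n := Nat.lt_succ_iff.1 (Finset.mem_range.1 hi)
      have h2 : l ^ n = l ^ (n - i) * l ^ i := by rw [← pow_add, Nat.sub_add_cancel hin]
      calc l ^ n * (P.coeff i * w ^ i) = P.coeff i * l ^ (n - i) * (l ^ i * w ^ i) := by rw [h2]; ring
        _ = _ := by
          rw [hcw, Finset.mul_sum]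
          exact Finset.sum_congr rfl fun j _ => by ring
    rw [mul_assoc, key, Finset.mul_sum, ← Fin.sum_univ_eq_sum_range (fun j => q * ((∑ i ∈ range (n + 1), P.coeff i * l ^ (n - i) * cc i j) * w ^ j)) (m + 1)]
    have h2 : ∀ j : Fin (m + 1), q * ((∑ i ∈ range (n + 1), P.coeff i * l ^ (n - i) * cc i j) * w ^ (j : ℕ)) =
        (q * ∑ i ∈ range (n + 1), P.coeff i * l ^ (n - i) * cc i j) * w ^ (j : ℕ) := fun j => by ring
    rw [Finset.sum_congr rfl fun j _ => h2 j]
    refine mem_Ext F _ fun j => hFm _ ?_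
    refine Submodule.sum_mem _ fun i hi => ?_
    have hin : i ≤ n := Nat.lt_succ_iff.1 (Finset.mem_range.1 hi)
    have h3 := pow_mem_add (pow_mem_add (hP2 i) (mem_pow_pow hl (n - i))) (hcc i j)
    have h4 : n + d * (n - i) + d * i = (1 + d) * n := by
      have : d * n = d * (n - i) + d * i := by rw [← mul_add, Nat.sub_add_cancel hin]
      rw [add_mul, one_mul, this]
      ring
    rwa [h4] at h3

/-- more numbers than the growth satisfy a relation of bounded degree -/
theorem gr_li (c e r d : ℕ) (her : e < r) : ∃ N : ℕ, ∀ (K : IntermediateField ℚ ℂ) (W : Submodule K ℂ), (1 : ℂ) ∈ W → GR c e W →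
    ∀ (x : Fin r → ℂ) (p : ℂ), p ≠ 0 → p ∈ W ^ d → (∀ i, p * x i ∈ W ^ d) →
      ¬ LinearIndependent ℚ (fun s : Fin r → Fin (N + 1) => ∏ i, x i ^ (s i : ℕ)) := by
  set N := c * (d * r + 1) ^ e with hN
  refine ⟨N, ?_⟩
  intro K W h1 h x p hp0 hp hpx hLI
  obtain ⟨q, F, hq, hF, hFd, hFm⟩ := h (d * (r * N))
  have hmem : ∀ s : Fin r → Fin (N + 1), q * (p ^ (r * N) * ∏ i, x i ^ (s i : ℕ)) ∈ F := by
    intro s
    refine hFm _ ?_
    have h2 : p ^ (r * N) * ∏ i, x i ^ (s i : ℕ) = ∏ i : Fin r, (p ^ (N - (s i : ℕ)) * (p * x i) ^ (s i : ℕ)) := by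
      have h3 : p ^ (r * N) = ∏ _i : Fin r, p ^ N := by
        rw [Finset.prod_const, Finset.card_univ, Fintype.card_fin, ← pow_mul, mul_comm]
      rw [h3, ← Finset.prod_mul_distrib]
      refine Finset.prod_congr rfl fun i _ => ?_
      have h4 : (s i : ℕ) ≤ N := Nat.lt_succ_iff.1 (s i).2
      rw [mul_pow, ← mul_assoc, ← pow_add, Nat.sub_add_cancel h4]
    rw [h2]
    have h5 := mem_pow_prod (W := W) Finset.univ (fun _ : Fin r => d * N) (fun i => p ^ (N - (s i : ℕ)) * (p * x i) ^ (s i : ℕ)) (by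
      intro i _
      have h4 : (s i : ℕ) ≤ N := Nat.lt_succ_iff.1 (s i).2
      have h6 := pow_mem_add (mem_pow_pow hp (N - (s i : ℕ))) (mem_pow_pow (hpx i) (s i : ℕ))
      rwa [← mul_add, Nat.sub_add_cancel h4] at h6)
    rw [Finset.sum_const, Finset.card_univ, Fintype.card_fin, smul_eq_mul] at h5
    rwa [show d * (r * N) = r * (d * N) by ring]
  have hc0 : q * p ^ (r * N) ≠ 0 := mul_ne_zero hq (pow_ne_zero _ hp0)
  have hLI2 : LinearIndependent ℚ (fun s : Fin r → Fin (N + 1) => (⟨_, hmem s⟩ : F)) := by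
    apply LinearIndependent.of_comp F.subtype
    have h3 := hLI.map' (LinearMap.mulLeft ℚ (q * p ^ (r * N))) (by
      rw [LinearMap.ker_eq_bot]
      intro a b hab
      exact mul_left_cancel₀ hc0 hab)
    have h5 : (F.subtype ∘ fun s : Fin r → Fin (N + 1) => (⟨_, hmem s⟩ : F)) =
        (LinearMap.mulLeft ℚ (q * p ^ (r * N))) ∘ fun s => ∏ i, x i ^ (s i : ℕ) := by
      funext s
      simp only [Function.comp_apply, Submodule.subtype_apply, LinearMap.mulLeft_apply]
      ring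
    rw [h5]
    exact h3
  have h4 := hLI2.fintype_card_le_finrank
  rw [Fintype.card_fun, Fintype.card_fin, Fintype.card_fin] at h4
  have h5 := h4.trans hFd
  have h6 : d * (r * N) + 1 ≤ (d * r + 1) * (N + 1) := by
    have : (d * r + 1) * (N + 1) = d * (r * N) + d * r + N + 1 := by ring
    omega
  have h7 : c * (d * (r * N) + 1) ^ e ≤ N * (N + 1) ^ e := by
    calc c * (d * (r * N) + 1) ^ e ≤ c * ((d * r + 1) * (N + 1)) ^ e := Nat.mul_le_mul_left _ (Nat.pow_le_pow_left h6 _)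
      _ = c * (d * r + 1) ^ e * (N + 1) ^ e := by rw [mul_pow]; ring
      _ = _ := by rw [← hN]
  have h8 : (N + 1) * (N + 1) ^ e ≤ (N + 1) ^ r := by
    rw [← pow_succ']
    exact Nat.pow_le_pow_right (Nat.succ_pos _) her
  have h9 : N * (N + 1) ^ e < (N + 1) * (N + 1) ^ e := Nat.mul_lt_mul_of_pos_right (Nat.lt_succ_self _) (by positivity)
  omega

end Pool.Agent.Y124.TD
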