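import Pool.Agent.Y124.TD.Nm
import Pool.Agent.Y124.TD.Bt

/-!
# Independence of the monomials in the entries of the local solutions
-/

set_option autoImplicit false

open PowerSeries Filter Topology

namespace Pool.Agent.Y124.TD

open Pool.Agent.Y124 Pool.Agent.Y124.GE Pool.Agent.Y113 Pool.Agent.Y120.GH Pool.Agent.Y120.GF

variable {a b : Polynomial ℚ}

/-- the three entries -/
noncomputable def Y3 (L : LD a b) (p : Fin 3) : ℚ⟦X⟧ := ![L.Y 0 0, L.Y 1 0, L.Y 0 1] p

lemma Y3_mem (L : LD a b) {R : ℝ} (hY : ∀ i j, cx (L.Y i j) ∈ Cw R) (p : Fin 3) : cx (Y3 L p) ∈ Cw R := by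
  fin_cases p
  · exact hY 0 0
  · exact hY 1 0
  · exact hY 0 1

lemma evm_mono (A B : ℂ⟦X⟧) (m : Fin 2 →₀ ℕ) (c : Polynomial ℂ) :
    evm A B 1 (MvPolynomial.monomial m c) = (c : ℂ⟦X⟧) * (A ^ m 0 * B ^ m 1) := by
  rw [evm, MvPolynomial.coe_eval₂Hom, MvPolynomial.eval₂_monomial, Finsupp.prod_fintype _ _ (fun i => pow_zero _), Fin.prod_univ_two,
    map_one, one_mul, one_mul]
  rfl

lemma ou_mono {R : ℝ} (hR : 0 ≤ R) {A B : ℂ⟦X⟧} (hA : A ∈ Cw R) (hB : B ∈ Cw R) (c : Polynomial ℂ) (i j : ℕ) {z : ℂ} (hz : R < ‖z‖) :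
    ou ((c : ℂ⟦X⟧) * (A ^ i * B ^ j)) z = c.eval (1 / z) * (ou A z ^ i * ou B z ^ j) := by
  rw [ou_mul hR (poly_mem _) ((Cw R).mul_mem ((Cw R).pow_mem hA _) ((Cw R).pow_mem hB _)) hz, ou_poly,
    ou_mul hR ((Cw R).pow_mem hA _) ((Cw R).pow_mem hB _) hz, ou_pow hR hA hz, ou_pow hR hB hz]

section
variable (L : LD a b) {R : ℝ} (hR : 1 ≤ R) (hY : ∀ i j, cx (L.Y i j) ∈ Cw R) {u0 : ℝ} (hu0 : 0 < u0)
    (h : ∀ u : ℝ, 0 < u → u < u0 → LocInd (fun p s => xs L p s) (u : ℂ))
include hR hY hu0 h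

/-- the first row is algebraically independent -/
lemma li_row (h00 : L.N 0 0 = 0) (h01 : L.N 0 1 = 0) (P : RR) (hP : evm (cx (L.Y 0 0)) (cx (L.Y 0 1)) 1 P = 0) : P = 0 := by
  classical
  have hR0 : (0 : ℝ) ≤ R := by linarith
  set δ := P.totalDegree with hδ
  have hdeg : ∀ m ∈ P.support, m 0 ≤ δ ∧ m 1 ≤ δ := by
    intro m hm
    have h1 := MvPolynomial.le_totalDegree hm
    rw [Finsupp.sum_fintype _ _ (fun _ => rfl), Fin.sum_univ_two] at h1
    omega
  set fs : (Fin 3 → Fin (δ + 1)) → (Fin 2 →₀ ℕ) := fun s => Finsupp.equivFunOnFinite.symm ![(s 0 : ℕ), (s 2 : ℕ)] with hfs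
  have key := li_mono L hR hY hu0 h δ R (fun s => if (s 1 : ℕ) = 0 then P.coeff (fs s) else 0) (by
    intro t ht
    have hz : R < ‖(t : ℂ)‖ := by
      rw [Complex.norm_real, Real.norm_of_nonneg (by linarith)]
      exact ht
    have hx0 : xs L 0 (1 / (t : ℂ)) = ou (cx (L.Y 0 0)) t := by
      show Xt L 0 0 (1 / (t : ℂ)) = _
      rw [Xt, Fin.sum_univ_two, h00, h01]
      simp only [Rat.cast_zero, zero_mul, add_zero, mul_zero]
      rfl
    have hx2 : xs L 2 (1 / (t : ℂ)) = ou (cx (L.Y 0 1)) t := by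
      show Xt L 0 1 (1 / (t : ℂ)) = _
      rw [Xt, Fin.sum_univ_two, h00, h01]
      simp only [Rat.cast_zero, zero_mul, add_zero, mul_zero]
      rfl
    have h1 : ou (evm (cx (L.Y 0 0)) (cx (L.Y 0 1)) 1 P) t = 0 := by rw [hP, ou_zero]
    have h2 : evm (cx (L.Y 0 0)) (cx (L.Y 0 1)) 1 P =
        ∑ m ∈ P.support, ((P.coeff m : Polynomial ℂ) : ℂ⟦X⟧) * (cx (L.Y 0 0) ^ m 0 * cx (L.Y 0 1) ^ m 1) := by
      conv_lhs => rw [MvPolynomial.as_sum P]
      rw [map_sum]
      exact Finset.sum_congr rfl fun m _ => evm_mono _ _ _ _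
    rw [h2, ou_sum hR0 _ (fun m _ => (Cw R).mul_mem (poly_mem _) ((Cw R).mul_mem ((Cw R).pow_mem (hY 0 0) _) ((Cw R).pow_mem (hY 0 1) _))) hz,
      Finset.sum_congr rfl fun m _ => ou_mono hR0 (hY 0 0) (hY 0 1) (P.coeff m) (m 0) (m 1) hz] at h1
    rw [← h1]
    symm
    set sm : (m : Fin 2 →₀ ℕ) → Fin 3 → Fin (δ + 1) := fun m => ![Fin.ofNat (δ + 1) (m 0), 0, Fin.ofNat (δ + 1) (m 1)] with hsm
    have hsm0 : ∀ m ∈ P.support, ((sm m 0 : Fin (δ + 1)) : ℕ) = m 0 := by
      intro m hm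
      show ((Fin.ofNat (δ + 1) (m 0) : Fin (δ + 1)) : ℕ) = m 0
      rw [Fin.val_ofNat, Nat.mod_eq_of_lt (Nat.lt_succ_of_le (hdeg m hm).1)]
    have hsm2 : ∀ m ∈ P.support, ((sm m 2 : Fin (δ + 1)) : ℕ) = m 1 := by
      intro m hm
      show ((Fin.ofNat (δ + 1) (m 1) : Fin (δ + 1)) : ℕ) = m 1
      rw [Fin.val_ofNat, Nat.mod_eq_of_lt (Nat.lt_succ_of_le (hdeg m hm).2)]
    have hfsm : ∀ m ∈ P.support, fs (sm m) = m := by
      intro m hm
      ext i
      fin_cases i
      · exact hsm0 m hm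
      · exact hsm2 m hm
    rw [← Finset.sum_subset (Finset.subset_univ (P.support.image sm))]
    · rw [Finset.sum_image (fun m hm m' hm' heq => by rw [← hfsm m hm, ← hfsm m' hm', heq])]
      refine Finset.sum_congr rfl fun m hm => ?_
      have h3 : ((sm m 1 : Fin (δ + 1)) : ℕ) = 0 := rfl
      rw [Fin.prod_univ_three, h3, if_pos rfl, hfsm m hm, hsm0 m hm, hsm2 m hm, hx0, hx2, pow_zero, mul_one]
    · intro s _ hs
      by_cases hs1 : (s 1 : ℕ) = 0
      · rw [if_pos hs1]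
        have h4 : P.coeff (fs s) = 0 := by
          by_contra hne
          apply hs
          refine Finset.mem_image.2 ⟨fs s, MvPolynomial.mem_support_iff.2 hne, ?_⟩
          funext i
          fin_cases i
          · apply Fin.ext
            exact hsm0 _ (MvPolynomial.mem_support_iff.2 hne)
          · apply Fin.ext
            exact hs1.symm
          · apply Fin.ext
            exact hsm2 _ (MvPolynomial.mem_support_iff.2 hne)
        rw [h4, Polynomial.eval_zero, zero_mul]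
      · rw [if_neg hs1, Polynomial.eval_zero, zero_mul])
  ext1 m
  rw [MvPolynomial.coeff_zero]
  by_contra hne
  have hm := MvPolynomial.mem_support_iff.2 hne
  have h5 := congrFun key ![Fin.ofNat (δ + 1) (m 0), 0, Fin.ofNat (δ + 1) (m 1)]
  have h6 : ((![Fin.ofNat (δ + 1) (m 0), 0, Fin.ofNat (δ + 1) (m 1)] : Fin 3 → Fin (δ + 1)) 1 : ℕ) = 0 := rfl
  have h7 : fs ![Fin.ofNat (δ + 1) (m 0), 0, Fin.ofNat (δ + 1) (m 1)] = m := by
    ext i
    fin_cases i
    · show ((Fin.ofNat (δ + 1) (m 0) : Fin (δ + 1)) : ℕ) = m 0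
      rw [Fin.val_ofNat, Nat.mod_eq_of_lt (Nat.lt_succ_of_le (hdeg m hm).1)]
    · show ((Fin.ofNat (δ + 1) (m 1) : Fin (δ + 1)) : ℕ) = m 1
      rw [Fin.val_ofNat, Nat.mod_eq_of_lt (Nat.lt_succ_of_le (hdeg m hm).2)]
  rw [if_pos h6, h7] at h5
  exact hne h5

/-- **The monomials in three entries of the local solution are linearly independent.** -/
theorem li_Y3 (hD : De a b ≠ 0) (hN : (∀ i j, L.N i j = 0) ∨
    (L.m 0 = L.m 1 ∧ L.N 0 0 = 0 ∧ L.N 0 1 = 0 ∧ L.N 1 0 = 1 ∧ L.N 1 1 = 0)) (δ : ℕ) :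
    LinearIndependent (Polynomial ℚ) (fun s : Fin 3 → Fin (δ + 1) => ∏ p, Y3 L p ^ (s p : ℕ)) := by
  classical
  have hR0 : (0 : ℝ) ≤ R := by linarith
  rw [Fintype.linearIndependent_iff]
  intro G hG
  have hG' : ∑ s : Fin 3 → Fin (δ + 1), ((cp (G s) : Polynomial ℂ) : ℂ⟦X⟧) * ∏ p, cx (Y3 L p) ^ (s p : ℕ) = 0 := by
    have h1 := congrArg cx hG
    rw [map_sum, map_zero] at h1
    rw [← h1]
    refine Finset.sum_congr rfl fun s _ => ?_
    rw [psmul, map_mul, map_prod, coe_cp]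
    congr 1
    exact Finset.prod_congr rfl fun p _ => (map_pow _ _ _).symm
  have hinj : ∀ p : Polynomial ℚ, cp p = 0 → p = 0 := fun p hp =>
    (Polynomial.map_eq_zero_iff (algebraMap ℚ ℂ).injective).1 hp
  rcases hN with hN | ⟨hm, h00, h01, h10, h11⟩
  · have key := li_mono L hR hY hu0 h δ R (fun s => cp (G s)) (by
      intro t ht
      have hz : R < ‖(t : ℂ)‖ := by
        rw [Complex.norm_real, Real.norm_of_nonneg (by linarith)]
        exact ht
      have hx : ∀ p, xs L p (1 / (t : ℂ)) = ou (cx (Y3 L p)) t := by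
        have h2 : ∀ i j, Xt L i j (1 / (t : ℂ)) = ou (cx (L.Y i j)) t := by
          intro i j
          rw [Xt, Fin.sum_univ_two, hN, hN]
          simp only [Rat.cast_zero, zero_mul, add_zero, mul_zero]
          rfl
        intro p
        fin_cases p
        · exact h2 0 0
        · exact h2 1 0
        · exact h2 0 1
      have h1 := congrArg (fun f => ou f (t : ℂ)) hG'
      rw [ou_zero, ou_sum hR0 _ (fun s _ => (Cw R).mul_mem (poly_mem _) ((Cw R).prod_mem fun p _ => (Cw R).pow_mem (Y3_mem L hY p) _)) hz] at h1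
      rw [← h1]
      refine Finset.sum_congr rfl fun s _ => ?_
      rw [ou_mul hR0 (poly_mem _) ((Cw R).prod_mem fun p _ => (Cw R).pow_mem (Y3_mem L hY p) _) hz, ou_poly,
        ou_prod hR0 _ (fun p _ => (Cw R).pow_mem (Y3_mem L hY p) _) hz]
      congr 1
      refine Finset.prod_congr rfl fun p _ => ?_
      rw [ou_pow hR0 (Y3_mem L hY p) hz, hx])
    intro s
    exact hinj _ (congrFun key s)
  · -- the logarithmic case
    obtain ⟨n, w0, hw0, -, hdet⟩ := det_mono L hD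
    have c00 : cN (fun i => (L.m i : ℚ) / 12) ((1 / 12 : ℚ) • L.N) 0 0 = (L.m 0 : ℚ) / 12 := by
      simp [cN, h00]
    have c01 : cN (fun i => (L.m i : ℚ) / 12) ((1 / 12 : ℚ) • L.N) 0 1 = 0 := by
      simp [cN, h01]
    have c10 : cN (fun i => (L.m i : ℚ) / 12) ((1 / 12 : ℚ) • L.N) 1 0 = -(1 / 12) := by
      simp [cN, h10]
    have c11 : cN (fun i => (L.m i : ℚ) / 12) ((1 / 12 : ℚ) • L.N) 1 1 = (L.m 0 : ℚ) / 12 := by
      simp [cN, h11, hm]
    have o00 := ode_row L 0 0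
    have o01 := ode_row L 0 1
    have o10 := ode_row L 1 0
    rw [Fin.sum_univ_two, Fin.sum_univ_two, c00, c01, map_zero, zero_mul, add_zero] at o00 o01
    rw [Fin.sum_univ_two, Fin.sum_univ_two, c10, c11, map_neg] at o10
    have hX : cx (PowerSeries.X) = PowerSeries.X := by
      have := cx_poly Polynomial.X
      rw [Polynomial.coe_X, Polynomial.map_X, Polynomial.coe_X] at this
      exact this
    have q00 := congrArg cx o00
    have q01 := congrArg cx o01
    have q10 := congrArg cx o10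
    have qd := congrArg cx hdet
    simp only [map_mul, map_add, map_sub, map_neg, cx_der, cx_C, ← coe_cp, hX, map_pow] at q00 q01 q10 qd
    have hCp : ∀ c : ℂ, ((Polynomial.C c : Polynomial ℂ) : ℂ⟦X⟧) = PowerSeries.C c := fun c => Polynomial.coe_C c
    have hDc : cp (De a b) ≠ 0 := fun h0 => hD (hinj _ h0)
    have key := log_free (D := cp (De a b)) (a := Polynomial.C (((L.m 0 : ℚ) / 12 : ℚ) : ℂ) * cp (De a b) + Polynomial.X * cp (AE a b 0 0))
      (b := Polynomial.X * cp (AE a b 1 0)) (c := Polynomial.X * cp (AE a b 0 1))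
      (e := Polynomial.C (((L.m 0 : ℚ) / 12 : ℚ) : ℂ) * cp (De a b) + Polynomial.X * cp (AE a b 1 1))
      (G₀ := Polynomial.X * cp (AE a b 1 0) * (Polynomial.C (w0 : ℂ) * Polynomial.X ^ n))
      (A := cx (L.Y 0 0)) (B := cx (L.Y 0 1)) (T := cx (L.Y 1 0)) (κ := -((1 / 12 : ℚ) : ℂ)) hDc (by norm_num)
      (by
        simp only [Polynomial.coe_add, Polynomial.coe_mul, Polynomial.coe_X, hCp]
        linear_combination q00)
      (by
        simp only [Polynomial.coe_add, Polynomial.coe_mul, Polynomial.coe_X, hCp]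
        linear_combination q01)
      (by
        simp only [Polynomial.coe_add, Polynomial.coe_mul, Polynomial.coe_X, Polynomial.coe_pow, hCp, map_neg]
        linear_combination (cx (L.Y 0 0)) * q10 + (PowerSeries.X * ((cp (AE a b 1 0) : Polynomial ℂ) : ℂ⟦X⟧)) * qd)
      (li_row L hR hY hu0 h h00 h01)
    -- the polynomial
    set mf : (Fin 3 → Fin (δ + 1)) → (Fin 2 →₀ ℕ) := fun s => Finsupp.equivFunOnFinite.symm ![(s 0 : ℕ), (s 2 : ℕ)] with hmf
    set Φ : Polynomial RR := ∑ s : Fin 3 → Fin (δ + 1), Polynomial.C (MvPolynomial.monomial (mf s) (cp (G s))) * Polynomial.X ^ (s 1 : ℕ) with hΦ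
    have hΦ0 := key Φ (by
      rw [hΦ, Polynomial.eval₂_finsetSum, ← hG']
      refine Finset.sum_congr rfl fun s _ => ?_
      rw [Polynomial.eval₂_mul, Polynomial.eval₂_C, Polynomial.eval₂_pow, Polynomial.eval₂_X, evm_mono, Fin.prod_univ_three]
      have e0 : (mf s) 0 = (s 0 : ℕ) := rfl
      have e1 : (mf s) 1 = (s 2 : ℕ) := rfl
      have f0 : Y3 L 0 = L.Y 0 0 := rfl
      have f1 : Y3 L 1 = L.Y 1 0 := rfl
      have f2 : Y3 L 2 = L.Y 0 1 := rfl
      rw [e0, e1, f0, f1, f2]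
      ring)
    intro s
    apply hinj
    have h8 := congrArg (fun Ψ : Polynomial RR => (Ψ.coeff (s 1 : ℕ)).coeff (mf s)) hΦ0
    rw [Polynomial.coeff_zero, MvPolynomial.coeff_zero, hΦ, Polynomial.finsetSum_coeff, MvPolynomial.coeff_sum, Finset.sum_eq_single s] at h8
    · rw [Polynomial.coeff_C_mul, Polynomial.coeff_X_pow, if_pos rfl, mul_one, MvPolynomial.coeff_monomial, if_pos rfl] at h8
      exact h8
    · intro s' _ hne
      rw [Polynomial.coeff_C_mul, Polynomial.coeff_X_pow]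
      split_ifs with h9
      · rw [mul_one, MvPolynomial.coeff_monomial, if_neg]
        intro h10
        apply hne
        have g0 := DFunLike.congr_fun h10 0
        have g1 := DFunLike.congr_fun h10 1
        funext i
        fin_cases i
        · exact Fin.ext g0
        · exact Fin.ext h9.symm
        · exact Fin.ext g1
      · rw [mul_zero, MvPolynomial.coeff_zero]
    · intro h9
      exact absurd (Finset.mem_univ _) h9
end

end Pool.Agent.Y124.TD
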